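import Pool.Agent.Run7.h922.Z.Even

/-!
Explicit tables for an even number of columns and 6, 8, 10, 14 or 16 rows.
-/

open SimpleGraph Run7.h138

namespace Run7.h922.Z

theorem even_emt_6 (h : ℕ) (hh : 1 ≤ h) :
    EdgeMagicTotal (pathGraph (2 * h) □ pathGraph 6) :=
  zig_even h 6 hh (by decide)
    (fun s => ([0, 1, 1, 1, 2, 2, 3, 3, 4, 4, 4, 5, 6, 6] : List ℕ).getD s 0)
    (fun s => ([0, -2, 0, 2, -1, 1, -1, 0, -2, 0, 2, -1, -3, -2] : List ℤ).getD s 0)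
    (fun l => ([6, 1, 9, 8, 4, 2, 12] : List ℕ).getD l 0)
    (fun l => ([10, 7, 0, 5, 11, 3] : List ℕ).getD l 0)
    8 2 (by decide) (by decide) (by decide) (by decide) (by decide) (by decide)
    (by decide) (by decide) (by decide) (by decide) (by decide) (by decide) (by decide) (by decide)

theorem even_emt_8 (h : ℕ) (hh : 1 ≤ h) :
    EdgeMagicTotal (pathGraph (2 * h) □ pathGraph 8) :=
  zig_even h 8 hh (by decide)
    (fun s => ([0, 0, 0, 1, 1, 2, 2, 3, 3, 4, 4, 5, 6, 6, 6, 7, 8, 8] : List ℕ).getD s 0)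
    (fun s => ([0, 2, 4, 1, 3, 1, 2, 0, 2, 0, 2, -1, -3, -1, 0, -2, -4, -2] : List ℤ).getD s 0)
    (fun l => ([5, 16, 1, 7, 12, 3, 9, 0, 13] : List ℕ).getD l 0)
    (fun l => ([2, 6, 15, 4, 8, 11, 14, 10] : List ℕ).getD l 0)
    10 4 (by decide) (by decide) (by decide) (by decide) (by decide) (by decide)
    (by decide) (by decide) (by decide) (by decide) (by decide) (by decide) (by decide) (by decide)

theorem even_emt_10 (h : ℕ) (hh : 1 ≤ h) :
    EdgeMagicTotal (pathGraph (2 * h) □ pathGraph 10) :=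
  zig_even h 10 hh (by decide)
    (fun s => ([0, 0, 1, 1, 2, 2, 3, 3, 4, 4, 5, 5, 6, 6, 7, 7, 8, 8, 9, 9, 10, 10] : List ℕ).getD s 0)
    (fun s => ([0, 2, -1, 1, -1, 1, -1, 1, -1, 1, -1, 0, -2, 0, -2, 0, -3, -1, -3, -1, -3, -2] : List ℤ).getD s 0)
    (fun l => ([20, 8, 2, 14, 12, 0, 18, 6, 16, 4, 10] : List ℕ).getD l 0)
    (fun l => ([1, 19, 13, 3, 17, 11, 5, 7, 9, 15] : List ℕ).getD l 0)
    14 1 (by decide) (by decide) (by decide) (by decide) (by decide) (by decide)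
    (by decide) (by decide) (by decide) (by decide) (by decide) (by decide) (by decide) (by decide)

theorem even_emt_14 (h : ℕ) (hh : 1 ≤ h) :
    EdgeMagicTotal (pathGraph (2 * h) □ pathGraph 14) :=
  zig_even h 14 hh (by decide)
    (fun s => ([0, 0, 1, 1, 2, 2, 3, 3, 4, 4, 5, 5, 6, 6, 7, 7, 8, 8, 9, 9, 10, 10, 11, 11, 12, 12, 13, 13, 14, 14] : List ℕ).getD s 0)
    (fun s => ([0, 2, 0, 2, 0, 2, 0, 2, -1, 1, -1, 1, -1, 1, -1, 0, -2, 0, -2, 0, -2, 0, -2, 0, -2, 0, -3, -1, -3, -2] : List ℤ).getD s 0)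
    (fun l => ([28, 6, 8, 10, 22, 18, 4, 26, 12, 16, 20, 0, 24, 2, 14] : List ℕ).getD l 0)
    (fun l => ([7, 27, 23, 9, 1, 19, 11, 3, 13, 5, 21, 17, 15, 25] : List ℕ).getD l 0)
    20 2 (by decide) (by decide) (by decide) (by decide) (by decide) (by decide)
    (by decide) (by decide) (by decide) (by decide) (by decide) (by decide) (by decide) (by decide)

theorem even_emt_16 (h : ℕ) (hh : 1 ≤ h) :
    EdgeMagicTotal (pathGraph (2 * h) □ pathGraph 16) :=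
  zig_even h 16 hh (by decide)
    (fun s => ([0, 0, 1, 1, 2, 2, 3, 3, 3, 4, 4, 5, 5, 6, 6, 7, 7, 8, 8, 9, 9, 10, 10, 11, 11, 12, 12, 13, 13, 14, 14, 15, 15, 16] : List ℕ).getD s 0)
    (fun s => ([0, 2, 0, 2, 0, 2, -1, 1, 2, 0, 2, 0, 2, 0, 2, 0, 2, 0, 2, 0, 2, 0, 2, 0, 1, -1, 1, -1, 1, -1, 1, -1, 1, -2] : List ℤ).getD s 0)
    (fun l => ([23, 19, 6, 21, 0, 17, 2, 27, 4, 29, 11, 25, 13, 31, 15, 9, 7] : List ℕ).getD l 0)
    (fun l => ([5, 22, 20, 26, 30, 28, 18, 16, 14, 8, 12, 10, 3, 1, 24, 32] : List ℕ).getD l 0)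
    22 5 (by decide) (by decide) (by decide) (by decide) (by decide) (by decide)
    (by decide) (by decide) (by decide) (by decide) (by decide) (by decide) (by decide) (by decide)

end Run7.h922.Z
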