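import Pool.Agent.Run7.h922.Z.Even

/-!
Explicit tables for an even number of columns and 12, 20, 22, 26 or 32 rows.
-/

open SimpleGraph Run7.h138

set_option maxRecDepth 20000

namespace Run7.h922.Z

theorem even_emt_12 (h : ℕ) (hh : 1 ≤ h) :
    EdgeMagicTotal (pathGraph (2 * h) □ pathGraph 12) :=
  zig_even h 12 hh (by decide)
    (fun s => ([0, 0, 0, 1, 1, 2, 2, 3, 3, 4, 4, 5, 5, 6, 6, 7, 7, 8, 8, 9, 9, 9, 10, 11, 11, 12] : List ℕ).getD s 0)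
    (fun s => ([0, 2, 4, 2, 4, 1, 3, 0, 2, 0, 2, 0, 2, 0, 2, 0, 1, -1, 1, -1, 0, 2, 0, -2, 0, -2] : List ℤ).getD s 0)
    (fun l => ([19, 11, 5, 17, 1, 23, 9, 3, 7, 20, 0, 13, 15] : List ℕ).getD l 0)
    (fun l => ([4, 18, 12, 16, 10, 2, 22, 24, 8, 14, 21, 6] : List ℕ).getD l 0)
    15 6 (by decide) (by decide) (by decide) (by decide) (by decide) (by decide)
    (by decide) (by decide) (by decide) (by decide) (by decide) (by decide) (by decide) (by decide)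

theorem even_emt_20 (h : ℕ) (hh : 1 ≤ h) :
    EdgeMagicTotal (pathGraph (2 * h) □ pathGraph 20) :=
  zig_even h 20 hh (by decide)
    (fun s => ([0, 0, 1, 1, 2, 2, 3, 3, 4, 4, 5, 5, 6, 6, 7, 7, 8, 8, 9, 9, 10, 10, 11, 11, 12,
      12, 13, 13, 14, 14, 15, 15, 16, 16, 17, 17, 18, 18, 19, 19, 20, 20] : List ℕ).getD s 0)
    (fun s => ([0, 2, 0, 2, 0, 2, 0, 2, 0, 2, 0, 2, 0, 2, -1, 1, -1, 1, -1, 1, -1, 1, -1, 0, -2,
      0, -2, 0, -2, 0, -2, 0, -2, 0, -3, -1, -3, -1, -3, -2, -4, -2] : List ℤ).getD s 0)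
    (fun l => ([38, 8, 12, 40, 10, 14, 34, 6, 36, 2, 20, 16, 18, 26, 28, 30, 0, 32, 24, 4, 22] : List ℕ).getD l 0)
    (fun l => ([13, 39, 7, 9, 35, 11, 19, 17, 21, 37, 23, 25, 15, 5, 1, 29, 27, 3, 31, 33] : List ℕ).getD l 0)
    29 2 (by decide) (by decide) (by decide) (by decide) (by decide) (by decide)
    (by decide) (by decide) (by decide) (by decide) (by decide) (by decide) (by decide) (by decide)

theorem even_emt_22 (h : ℕ) (hh : 1 ≤ h) :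
    EdgeMagicTotal (pathGraph (2 * h) □ pathGraph 22) :=
  zig_even h 22 hh (by decide)
    (fun s => ([0, 0, 1, 1, 2, 2, 3, 3, 4, 4, 4, 5, 5, 6, 6, 7, 7, 8, 8, 9, 9, 10, 10, 11, 11,
      12, 12, 13, 13, 14, 14, 15, 15, 16, 16, 17, 17, 18, 18, 19, 19, 20, 20, 21, 21,
      22] : List ℕ).getD s 0)
    (fun s => ([0, 2, 0, 2, 0, 2, 0, 2, -1, 1, 2, 0, 2, 0, 2, 0, 2, 0, 2, 0, 2, 0, 2, 0, 2, 0,
      2, 0, 2, 0, 2, 0, 1, -1, 1, -1, 1, -1, 1, -1, 1, -1, 1, -1, 1, -2] : List ℤ).getD s 0)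
    (fun l => ([9, 13, 11, 15, 17, 33, 19, 35, 21, 6, 23, 37, 25, 39, 0, 41, 2, 43, 4, 29, 8,
      27, 31] : List ℕ).getD l 0)
    (fun l => ([44, 42, 40, 34, 16, 14, 12, 10, 38, 36, 5, 3, 1, 26, 24, 22, 20, 18, 32, 28, 30,
      7] : List ℕ).getD l 0)
    31 5 (by decide) (by decide) (by decide) (by decide) (by decide) (by decide)
    (by decide) (by decide) (by decide) (by decide) (by decide) (by decide) (by decide) (by decide)

theorem even_emt_26 (h : ℕ) (hh : 1 ≤ h) :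
    EdgeMagicTotal (pathGraph (2 * h) □ pathGraph 26) :=
  zig_even h 26 hh (by decide)
    (fun s => ([0, 0, 1, 1, 2, 2, 3, 3, 4, 4, 5, 5, 6, 6, 7, 7, 8, 8, 9, 9, 10, 10, 11, 11, 12,
      12, 13, 13, 14, 14, 15, 15, 16, 16, 17, 17, 18, 18, 19, 19, 20, 20, 21, 21, 22,
      22, 23, 23, 24, 24, 25, 25, 26, 26] : List ℕ).getD s 0)
    (fun s => ([0, 1, -1, 1, -1, 1, -2, 0, -2, 0, -2, 0, -2, 0, -2, 0, -2, 0, -2, 0, -2, 0, -2,
      0, -2, 0, -2, -1, -3, -1, -3, -1, -3, -1, -3, -1, -3, -1, -3, -1, -4, -2, -4,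
      -2, -4, -2, -4, -2, -4, -2, -4, -2, -4, -2] : List ℤ).getD s 0)
    (fun l => ([0, 40, 2, 42, 4, 44, 24, 28, 36, 30, 46, 32, 38, 34, 16, 22, 14, 20, 12, 18, 10,
      52, 8, 50, 6, 48, 26] : List ℕ).getD l 0)
    (fun l => ([39, 37, 35, 33, 31, 11, 27, 15, 13, 3, 1, 9, 7, 29, 41, 43, 45, 47, 49, 51, 17,
      19, 21, 23, 25, 5] : List ℕ).getD l 0)
    39 (-2) (by decide) (by decide) (by decide) (by decide) (by decide) (by decide)
    (by decide) (by decide) (by decide) (by decide) (by decide) (by decide) (by decide) (by decide)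

theorem even_emt_32 (h : ℕ) (hh : 1 ≤ h) :
    EdgeMagicTotal (pathGraph (2 * h) □ pathGraph 32) :=
  zig_even h 32 hh (by decide)
    (fun s => ([0, 0, 1, 1, 2, 2, 3, 3, 4, 4, 5, 5, 6, 6, 7, 7, 8, 8, 9, 9, 10, 10, 11, 11, 12,
      12, 13, 13, 14, 14, 15, 15, 16, 16, 17, 17, 18, 18, 19, 19, 20, 20, 21, 21, 22,
      22, 23, 23, 24, 24, 25, 25, 26, 26, 27, 27, 28, 28, 29, 29, 30, 30, 31, 31, 32,
      32] : List ℕ).getD s 0)
    (fun s => ([0, 1, -1, 1, -1, 1, -1, 1, -2, 0, -2, 0, -2, 0, -2, 0, -2, 0, -2, 0, -2, 0, -2,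
      0, -2, 0, -2, 0, -2, 0, -2, 0, -2, -1, -3, -1, -3, -1, -3, -1, -3, -1, -3, -1,
      -3, -1, -3, -1, -4, -2, -4, -2, -4, -2, -4, -2, -4, -2, -4, -2, -4, -2, -4, -2,
      -4, -2] : List ℤ).getD s 0)
    (fun l => ([0, 50, 6, 48, 4, 44, 2, 42, 46, 40, 56, 38, 54, 30, 52, 28, 36, 26, 34, 24, 18,
      22, 16, 20, 14, 64, 12, 62, 10, 60, 8, 58, 32] : List ℕ).getD l 0)
    (fun l => ([47, 41, 43, 45, 49, 51, 53, 9, 11, 1, 3, 5, 13, 15, 17, 33, 35, 37, 39, 55, 57,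
      59, 61, 63, 19, 21, 23, 25, 27, 29, 31, 7] : List ℕ).getD l 0)
    48 (-2) (by decide) (by decide) (by decide) (by decide) (by decide) (by decide)
    (by decide) (by decide) (by decide) (by decide) (by decide) (by decide) (by decide) (by decide)

end Run7.h922.Z
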