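import Pool.Agent.Run7.h922.Z.WinVal

/-!
An even number of columns and `24 k + 38` rows.
-/

open SimpleGraph Run7.h138

namespace Run7.h922.Z.Fam38

/-- the window of level `l` -/
def X (k l : ℕ) : ℕ :=
  if l = 0 then 0 else if l = 24 * k + 38 then 12 * k + 19 else
    if l % 2 = 1 then
      if l ≤ 6 * k + 9 then l / 2 + 18 * k + 29 else
      if l ≤ 8 * k + 11 then l / 2 + 4 * k + 7 else
      if l ≤ 12 * k + 17 then 22 * k + 34 - l / 2 else
      if l ≤ 20 * k + 29 then 18 * k + 27 - l / 2 else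
      34 * k + 53 - l / 2
    else
      if l ≤ 4 * k + 6 then l / 2 else
      if l ≤ 8 * k + 12 then l / 2 + 12 * k + 19 else
      if l ≤ 12 * k + 18 then 18 * k + 29 - l / 2 else
      if l ≤ 14 * k + 20 then 28 * k + 44 - l / 2 else
      14 * k + 22 - l / 2

/-- the window of the edges between the levels `l` and `l + 1` -/
def Y (k l : ℕ) : ℕ := 36 * k + 57 - X k l - X k (l + 1)

theorem X_zero (k : ℕ) : X k 0 = 0 := by
  unfold X
  rw [if_pos rfl]

theorem X_last (k : ℕ) : X k (24 * k + 38) = 12 * k + 19 := by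
  unfold X
  rw [if_neg (by omega), if_pos rfl]

theorem X_o0 (k l : ℕ) (h1 : l % 2 = 1) (h2 : 1 ≤ l) (h3 : l ≤ 6 * k + 9) :
    X k l = l / 2 + 18 * k + 29 := by
  unfold X
  rw [if_neg (by omega), if_neg (by omega), if_pos h1, if_pos (by omega)]

theorem X_o1 (k l : ℕ) (h1 : l % 2 = 1) (h2 : 6 * k + 11 ≤ l) (h3 : l ≤ 8 * k + 11) :
    X k l = l / 2 + 4 * k + 7 := by
  unfold X
  rw [if_neg (by omega), if_neg (by omega), if_pos h1, if_neg (by omega), if_pos (by omega)]

theorem X_o2 (k l : ℕ) (h1 : l % 2 = 1) (h2 : 8 * k + 13 ≤ l) (h3 : l ≤ 12 * k + 17) :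
    X k l = 22 * k + 34 - l / 2 := by
  unfold X
  rw [if_neg (by omega), if_neg (by omega), if_pos h1, if_neg (by omega), if_neg (by omega), if_pos (by omega)]

theorem X_o3 (k l : ℕ) (h1 : l % 2 = 1) (h2 : 12 * k + 19 ≤ l) (h3 : l ≤ 20 * k + 29) :
    X k l = 18 * k + 27 - l / 2 := by
  unfold X
  rw [if_neg (by omega), if_neg (by omega), if_pos h1, if_neg (by omega), if_neg (by omega), if_neg (by omega), if_pos (by omega)]

theorem X_o4 (k l : ℕ) (h1 : l % 2 = 1) (h2 : 20 * k + 31 ≤ l) (h3 : l ≤ 24 * k + 37) :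
    X k l = 34 * k + 53 - l / 2 := by
  unfold X
  rw [if_neg (by omega), if_neg (by omega), if_pos h1, if_neg (by omega), if_neg (by omega), if_neg (by omega), if_neg (by omega)]

theorem X_e0 (k l : ℕ) (h1 : l % 2 = 0) (h2 : 2 ≤ l) (h3 : l ≤ 4 * k + 6) :
    X k l = l / 2 := by
  unfold X
  rw [if_neg (by omega), if_neg (by omega), if_neg (by omega), if_pos (by omega)]

theorem X_e1 (k l : ℕ) (h1 : l % 2 = 0) (h2 : 4 * k + 8 ≤ l) (h3 : l ≤ 8 * k + 12) :
    X k l = l / 2 + 12 * k + 19 := by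
  unfold X
  rw [if_neg (by omega), if_neg (by omega), if_neg (by omega), if_neg (by omega), if_pos (by omega)]

theorem X_e2 (k l : ℕ) (h1 : l % 2 = 0) (h2 : 8 * k + 14 ≤ l) (h3 : l ≤ 12 * k + 18) :
    X k l = 18 * k + 29 - l / 2 := by
  unfold X
  rw [if_neg (by omega), if_neg (by omega), if_neg (by omega), if_neg (by omega), if_neg (by omega), if_pos (by omega)]

theorem X_e3 (k l : ℕ) (h1 : l % 2 = 0) (h2 : 12 * k + 20 ≤ l) (h3 : l ≤ 14 * k + 20) :
    X k l = 28 * k + 44 - l / 2 := by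
  unfold X
  rw [if_neg (by omega), if_neg (by omega), if_neg (by omega), if_neg (by omega), if_neg (by omega), if_neg (by omega), if_pos (by omega)]

theorem X_e4 (k l : ℕ) (h1 : l % 2 = 0) (h2 : 14 * k + 22 ≤ l) (h3 : l ≤ 24 * k + 36) :
    X k l = 14 * k + 22 - l / 2 := by
  unfold X
  rw [if_neg (by omega), if_neg (by omega), if_neg (by omega), if_neg (by omega), if_neg (by omega), if_neg (by omega), if_neg (by omega)]

theorem X_elim (k : ℕ) {P : ℕ → Prop} (z : P 0) (t : P (24 * k + 38))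
    (o0 : ∀ l, l % 2 = 1 → 1 ≤ l → l ≤ 6 * k + 9 → P l)
    (o1 : ∀ l, l % 2 = 1 → 6 * k + 11 ≤ l → l ≤ 8 * k + 11 → P l)
    (o2 : ∀ l, l % 2 = 1 → 8 * k + 13 ≤ l → l ≤ 12 * k + 17 → P l)
    (o3 : ∀ l, l % 2 = 1 → 12 * k + 19 ≤ l → l ≤ 20 * k + 29 → P l)
    (o4 : ∀ l, l % 2 = 1 → 20 * k + 31 ≤ l → l ≤ 24 * k + 37 → P l)
    (e0 : ∀ l, l % 2 = 0 → 2 ≤ l → l ≤ 4 * k + 6 → P l)
    (e1 : ∀ l, l % 2 = 0 → 4 * k + 8 ≤ l → l ≤ 8 * k + 12 → P l)
    (e2 : ∀ l, l % 2 = 0 → 8 * k + 14 ≤ l → l ≤ 12 * k + 18 → P l)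
    (e3 : ∀ l, l % 2 = 0 → 12 * k + 20 ≤ l → l ≤ 14 * k + 20 → P l)
    (e4 : ∀ l, l % 2 = 0 → 14 * k + 22 ≤ l → l ≤ 24 * k + 36 → P l) :
    ∀ l ≤ 24 * k + 38, P l := by
  intro l hl
  by_cases h0 : l = 0
  · subst h0; exact z
  by_cases hN : l = 24 * k + 38
  · subst hN; exact t
  rcases Nat.mod_two_eq_zero_or_one l with hp | hp
  · by_cases q0 : l ≤ 4 * k + 6
    · exact e0 l hp (by omega) q0
    by_cases q1 : l ≤ 8 * k + 12
    · exact e1 l hp (by omega) q1
    by_cases q2 : l ≤ 12 * k + 18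
    · exact e2 l hp (by omega) q2
    by_cases q3 : l ≤ 14 * k + 20
    · exact e3 l hp (by omega) q3
    exact e4 l hp (by omega) (by omega)
  · by_cases q0 : l ≤ 6 * k + 9
    · exact o0 l hp (by omega) q0
    by_cases q1 : l ≤ 8 * k + 11
    · exact o1 l hp (by omega) q1
    by_cases q2 : l ≤ 12 * k + 17
    · exact o2 l hp (by omega) q2
    by_cases q3 : l ≤ 20 * k + 29
    · exact o3 l hp (by omega) q3
    exact o4 l hp (by omega) (by omega)

def WX (k w : ℕ) : ℕ :=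
  if w ≤ 0 then 0 else
  if w ≤ 2 * k + 3 then 2 * w else
  if w ≤ 7 * k + 11 then 28 * k + 44 - 2 * w else
  if w ≤ 8 * k + 12 then 2 * w - 8 * k - 13 else
  if w ≤ 12 * k + 18 then 36 * k + 55 - 2 * w else
  if w ≤ 12 * k + 19 then 24 * k + 38 else
  if w ≤ 14 * k + 22 then 36 * k + 58 - 2 * w else
  if w ≤ 16 * k + 25 then 2 * w - 24 * k - 38 else
  if w ≤ 18 * k + 28 then 44 * k + 69 - 2 * w else
  if w ≤ 21 * k + 33 then 2 * w - 36 * k - 57 else
  if w ≤ 22 * k + 34 then 56 * k + 88 - 2 * w else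
  68 * k + 107 - 2 * w

theorem WX_X (k : ℕ) : ∀ l ≤ 24 * k + 38, WX k (X k l) = l ∧ X k l ≤ 24 * k + 38 := by
  refine X_elim k (P := fun l => WX k (X k l) = l ∧ X k l ≤ 24 * k + 38) ?_ ?_ ?_ ?_ ?_ ?_ ?_ ?_ ?_ ?_ ?_ ?_
  · show WX k (X k 0) = 0 ∧ X k 0 ≤ 24 * k + 38
    rw [X_zero]
    refine ⟨?_, by omega⟩
    unfold WX
    rw [if_pos (by omega)]
  · show WX k (X k (24 * k + 38)) = 24 * k + 38 ∧ X k (24 * k + 38) ≤ 24 * k + 38
    rw [X_last]
    refine ⟨?_, by omega⟩
    unfold WX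
    rw [if_neg (by omega), if_neg (by omega), if_neg (by omega), if_neg (by omega), if_neg (by omega), if_pos (by omega)]
  · intro l h1 h2 h3
    show WX k (X k l) = l ∧ X k l ≤ 24 * k + 38
    rw [X_o0 k l h1 h2 h3]
    refine ⟨?_, by omega⟩
    unfold WX
    rw [if_neg (by omega), if_neg (by omega), if_neg (by omega), if_neg (by omega), if_neg (by omega), if_neg (by omega), if_neg (by omega), if_neg (by omega), if_neg (by omega), if_pos (by omega)]
    omega
  · intro l h1 h2 h3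
    show WX k (X k l) = l ∧ X k l ≤ 24 * k + 38
    rw [X_o1 k l h1 h2 h3]
    refine ⟨?_, by omega⟩
    unfold WX
    rw [if_neg (by omega), if_neg (by omega), if_neg (by omega), if_pos (by omega)]
    omega
  · intro l h1 h2 h3
    show WX k (X k l) = l ∧ X k l ≤ 24 * k + 38
    rw [X_o2 k l h1 h2 h3]
    refine ⟨?_, by omega⟩
    unfold WX
    rw [if_neg (by omega), if_neg (by omega), if_neg (by omega), if_neg (by omega), if_neg (by omega), if_neg (by omega), if_neg (by omega), if_neg (by omega), if_pos (by omega)]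
    omega
  · intro l h1 h2 h3
    show WX k (X k l) = l ∧ X k l ≤ 24 * k + 38
    rw [X_o3 k l h1 h2 h3]
    refine ⟨?_, by omega⟩
    unfold WX
    rw [if_neg (by omega), if_neg (by omega), if_neg (by omega), if_neg (by omega), if_pos (by omega)]
    omega
  · intro l h1 h2 h3
    show WX k (X k l) = l ∧ X k l ≤ 24 * k + 38
    rw [X_o4 k l h1 h2 h3]
    refine ⟨?_, by omega⟩
    unfold WX
    rw [if_neg (by omega), if_neg (by omega), if_neg (by omega), if_neg (by omega), if_neg (by omega), if_neg (by omega), if_neg (by omega), if_neg (by omega), if_neg (by omega), if_neg (by omega), if_neg (by omega)]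
    omega
  · intro l h1 h2 h3
    show WX k (X k l) = l ∧ X k l ≤ 24 * k + 38
    rw [X_e0 k l h1 h2 h3]
    refine ⟨?_, by omega⟩
    unfold WX
    rw [if_neg (by omega), if_pos (by omega)]
    omega
  · intro l h1 h2 h3
    show WX k (X k l) = l ∧ X k l ≤ 24 * k + 38
    rw [X_e1 k l h1 h2 h3]
    refine ⟨?_, by omega⟩
    unfold WX
    rw [if_neg (by omega), if_neg (by omega), if_neg (by omega), if_neg (by omega), if_neg (by omega), if_neg (by omega), if_neg (by omega), if_pos (by omega)]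
    omega
  · intro l h1 h2 h3
    show WX k (X k l) = l ∧ X k l ≤ 24 * k + 38
    rw [X_e2 k l h1 h2 h3]
    refine ⟨?_, by omega⟩
    unfold WX
    rw [if_neg (by omega), if_neg (by omega), if_neg (by omega), if_neg (by omega), if_neg (by omega), if_neg (by omega), if_pos (by omega)]
    omega
  · intro l h1 h2 h3
    show WX k (X k l) = l ∧ X k l ≤ 24 * k + 38
    rw [X_e3 k l h1 h2 h3]
    refine ⟨?_, by omega⟩
    unfold WX
    rw [if_neg (by omega), if_neg (by omega), if_neg (by omega), if_neg (by omega), if_neg (by omega), if_neg (by omega), if_neg (by omega), if_neg (by omega), if_neg (by omega), if_neg (by omega), if_pos (by omega)]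
    omega
  · intro l h1 h2 h3
    show WX k (X k l) = l ∧ X k l ≤ 24 * k + 38
    rw [X_e4 k l h1 h2 h3]
    refine ⟨?_, by omega⟩
    unfold WX
    rw [if_neg (by omega), if_neg (by omega), if_pos (by omega)]
    omega

def WY (k w : ℕ) : ℕ :=
  if w ≤ 2 * k + 2 then 6 * k + 9 - w else
  if w ≤ 2 * k + 3 then w + 22 * k + 34 else
  if w ≤ 2 * k + 4 then w + 6 * k + 8 else
  if w ≤ 4 * k + 6 then w + 10 * k + 14 else
  if w ≤ 8 * k + 11 then w + 4 * k + 6 else
  if w ≤ 12 * k + 18 then w + 12 * k + 18 else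
  if w ≤ 12 * k + 19 then w - 1 else
  if w ≤ 14 * k + 21 then 20 * k + 31 - w else
  if w ≤ 18 * k + 28 then 18 * k + 28 - w else
  w - 4 * k - 8

theorem fin (k l x x' : ℕ) (v1 v2 v3 v4 : ℤ) (e1 : X k l = x) (e2 : X k (l + 1) = x') (hs : x + x' ≤ 36 * k + 57)
    (hw : WY k (36 * k + 57 - x - x') = l) (hy : 36 * k + 57 - x - x' < 24 * k + 38)
    (g1 : NV (0) (12 * k + 19) (18 * k + 28) (2 * k + 3) x = v1) (g2 : NV (0) (12 * k + 19) (18 * k + 28) (2 * k + 3) x' = v2)
    (g3 : NE (0) (12 * k + 19) (18 * k + 28) (2 * k + 3) (36 * k + 57 - x - x') = v3)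
    (g4 : (if l = 0 ∨ l + 1 = 24 * k + 38 then (1 : ℤ) else 0) = v4) (g5 : v1 + v2 + v3 + v4 = 8) :
    X k l + X k (l + 1) + Y k l = 36 * k + 57 ∧ WY k (Y k l) = l ∧ Y k l < 24 * k + 38 ∧
    NV (0) (12 * k + 19) (18 * k + 28) (2 * k + 3) (X k l) + NV (0) (12 * k + 19) (18 * k + 28) (2 * k + 3) (X k (l + 1)) +
      NE (0) (12 * k + 19) (18 * k + 28) (2 * k + 3) (Y k l) + (if l = 0 ∨ l + 1 = 24 * k + 38 then (1 : ℤ) else 0) = 8 := by
  have hY : Y k l = 36 * k + 57 - x - x' := by unfold Y; rw [e1, e2]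
  rw [hY, e1, e2]
  exact ⟨by omega, hw, hy, by rw [g1, g2, g3, g4]; exact g5⟩

theorem lf_z0o0 (k l : ℕ) (h0 : l = 0) :
    X k l + X k (l + 1) + Y k l = 36 * k + 57 ∧ WY k (Y k l) = l ∧ Y k l < 24 * k + 38 ∧
    NV (0) (12 * k + 19) (18 * k + 28) (2 * k + 3) (X k l) + NV (0) (12 * k + 19) (18 * k + 28) (2 * k + 3) (X k (l + 1)) +
      NE (0) (12 * k + 19) (18 * k + 28) (2 * k + 3) (Y k l) + (if l = 0 ∨ l + 1 = 24 * k + 38 then (1 : ℤ) else 0) = 8 := by
  have e1 := (show X k l = 0 by rw [h0]; exact X_zero k)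
  have e2 := X_o0 k (l + 1) (by omega) (by omega) (by omega)
  refine fin k l _ _ 0 4 3 1 e1 e2 (by omega) ?_ (by omega)
    ((nv_val _ _ _ _ _ 0 0 0 0 (if_neg (by omega)) (if_neg (by omega)) (if_neg (by omega)) (if_neg (by omega))).trans (by norm_num))
    ((nv_val _ _ _ _ _ 1 1 1 1 (if_pos (by omega)) (if_pos (by omega)) (if_pos (by omega)) (if_pos (by omega))).trans (by norm_num))
    ((ne_val _ _ _ _ _ 1 1 0 1 (if_pos (by omega)) (if_pos (by omega)) (if_neg (by omega)) (if_pos (by omega))).trans (by norm_num))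
    (if_pos (by omega)) (by norm_num)
  unfold WY
  rw [if_neg (by omega), if_neg (by omega), if_neg (by omega), if_neg (by omega), if_neg (by omega), if_neg (by omega), if_neg (by omega), if_neg (by omega), if_pos (by omega)]
  omega

theorem lf_e0o0 (k l : ℕ) (hp : l % 2 = 0) (h1 : 2 ≤ l) (h2 : l ≤ 4 * k + 6) (h3 : 1 ≤ l + 1) (h4 : l + 1 ≤ 6 * k + 9) :
    X k l + X k (l + 1) + Y k l = 36 * k + 57 ∧ WY k (Y k l) = l ∧ Y k l < 24 * k + 38 ∧
    NV (0) (12 * k + 19) (18 * k + 28) (2 * k + 3) (X k l) + NV (0) (12 * k + 19) (18 * k + 28) (2 * k + 3) (X k (l + 1)) +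
      NE (0) (12 * k + 19) (18 * k + 28) (2 * k + 3) (Y k l) + (if l = 0 ∨ l + 1 = 24 * k + 38 then (1 : ℤ) else 0) = 8 := by
  have e1 := X_e0 k l (by omega) (by omega) (by omega)
  have e2 := X_o0 k (l + 1) (by omega) (by omega) (by omega)
  refine fin k l _ _ 1 4 3 0 e1 e2 (by omega) ?_ (by omega)
    ((nv_val _ _ _ _ _ 1 0 0 0 (if_pos (by omega)) (if_neg (by omega)) (if_neg (by omega)) (if_neg (by omega))).trans (by norm_num))
    ((nv_val _ _ _ _ _ 1 1 1 1 (if_pos (by omega)) (if_pos (by omega)) (if_pos (by omega)) (if_pos (by omega))).trans (by norm_num))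
    ((ne_val _ _ _ _ _ 1 1 0 1 (if_pos (by omega)) (if_pos (by omega)) (if_neg (by omega)) (if_pos (by omega))).trans (by norm_num))
    (if_neg (by omega)) (by norm_num)
  unfold WY
  rw [if_neg (by omega), if_neg (by omega), if_neg (by omega), if_neg (by omega), if_neg (by omega), if_neg (by omega), if_neg (by omega), if_neg (by omega), if_pos (by omega)]
  omega

theorem lf_e1o0 (k l : ℕ) (hp : l % 2 = 0) (h1 : 4 * k + 8 ≤ l) (h2 : l ≤ 8 * k + 12) (h3 : 1 ≤ l + 1) (h4 : l + 1 ≤ 6 * k + 9) :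
    X k l + X k (l + 1) + Y k l = 36 * k + 57 ∧ WY k (Y k l) = l ∧ Y k l < 24 * k + 38 ∧
    NV (0) (12 * k + 19) (18 * k + 28) (2 * k + 3) (X k l) + NV (0) (12 * k + 19) (18 * k + 28) (2 * k + 3) (X k (l + 1)) +
      NE (0) (12 * k + 19) (18 * k + 28) (2 * k + 3) (Y k l) + (if l = 0 ∨ l + 1 = 24 * k + 38 then (1 : ℤ) else 0) = 8 := by
  have e1 := X_e1 k l (by omega) (by omega) (by omega)
  have e2 := X_o0 k (l + 1) (by omega) (by omega) (by omega)
  refine fin k l _ _ 3 4 1 0 e1 e2 (by omega) ?_ (by omega)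
    ((nv_val _ _ _ _ _ 1 1 0 1 (if_pos (by omega)) (if_pos (by omega)) (if_neg (by omega)) (if_pos (by omega))).trans (by norm_num))
    ((nv_val _ _ _ _ _ 1 1 1 1 (if_pos (by omega)) (if_pos (by omega)) (if_pos (by omega)) (if_pos (by omega))).trans (by norm_num))
    ((ne_val _ _ _ _ _ 1 0 0 0 (if_pos (by omega)) (if_neg (by omega)) (if_neg (by omega)) (if_neg (by omega))).trans (by norm_num))
    (if_neg (by omega)) (by norm_num)
  unfold WY
  rw [if_pos (by omega)]
  omega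

theorem lf_e1o1 (k l : ℕ) (hp : l % 2 = 0) (h1 : 4 * k + 8 ≤ l) (h2 : l ≤ 8 * k + 12) (h3 : 6 * k + 11 ≤ l + 1) (h4 : l + 1 ≤ 8 * k + 11) :
    X k l + X k (l + 1) + Y k l = 36 * k + 57 ∧ WY k (Y k l) = l ∧ Y k l < 24 * k + 38 ∧
    NV (0) (12 * k + 19) (18 * k + 28) (2 * k + 3) (X k l) + NV (0) (12 * k + 19) (18 * k + 28) (2 * k + 3) (X k (l + 1)) +
      NE (0) (12 * k + 19) (18 * k + 28) (2 * k + 3) (Y k l) + (if l = 0 ∨ l + 1 = 24 * k + 38 then (1 : ℤ) else 0) = 8 := by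
  have e1 := X_e1 k l (by omega) (by omega) (by omega)
  have e2 := X_o1 k (l + 1) (by omega) (by omega) (by omega)
  refine fin k l _ _ 3 2 3 0 e1 e2 (by omega) ?_ (by omega)
    ((nv_val _ _ _ _ _ 1 1 0 1 (if_pos (by omega)) (if_pos (by omega)) (if_neg (by omega)) (if_pos (by omega))).trans (by norm_num))
    ((nv_val _ _ _ _ _ 1 0 0 1 (if_pos (by omega)) (if_neg (by omega)) (if_neg (by omega)) (if_pos (by omega))).trans (by norm_num))
    ((ne_val _ _ _ _ _ 1 1 0 1 (if_pos (by omega)) (if_pos (by omega)) (if_neg (by omega)) (if_pos (by omega))).trans (by norm_num))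
    (if_neg (by omega)) (by norm_num)
  unfold WY
  rw [if_neg (by omega), if_neg (by omega), if_neg (by omega), if_neg (by omega), if_neg (by omega), if_neg (by omega), if_neg (by omega), if_pos (by omega)]
  omega

theorem lf_e1o2 (k l : ℕ) (hp : l % 2 = 0) (h1 : 4 * k + 8 ≤ l) (h2 : l ≤ 8 * k + 12) (h3 : 8 * k + 13 ≤ l + 1) (h4 : l + 1 ≤ 12 * k + 17) :
    X k l + X k (l + 1) + Y k l = 36 * k + 57 ∧ WY k (Y k l) = l ∧ Y k l < 24 * k + 38 ∧
    NV (0) (12 * k + 19) (18 * k + 28) (2 * k + 3) (X k l) + NV (0) (12 * k + 19) (18 * k + 28) (2 * k + 3) (X k (l + 1)) +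
      NE (0) (12 * k + 19) (18 * k + 28) (2 * k + 3) (Y k l) + (if l = 0 ∨ l + 1 = 24 * k + 38 then (1 : ℤ) else 0) = 8 := by
  have e1 := X_e1 k l (by omega) (by omega) (by omega)
  have e2 := X_o2 k (l + 1) (by omega) (by omega) (by omega)
  refine fin k l _ _ 3 3 2 0 e1 e2 (by omega) ?_ (by omega)
    ((nv_val _ _ _ _ _ 1 1 0 1 (if_pos (by omega)) (if_pos (by omega)) (if_neg (by omega)) (if_pos (by omega))).trans (by norm_num))
    ((nv_val _ _ _ _ _ 1 1 0 1 (if_pos (by omega)) (if_pos (by omega)) (if_neg (by omega)) (if_pos (by omega))).trans (by norm_num))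
    ((ne_val _ _ _ _ _ 1 0 0 1 (if_pos (by omega)) (if_neg (by omega)) (if_neg (by omega)) (if_pos (by omega))).trans (by norm_num))
    (if_neg (by omega)) (by norm_num)
  unfold WY
  rw [if_neg (by omega), if_neg (by omega), if_pos (by omega)]
  omega

theorem lf_e2o2 (k l : ℕ) (hp : l % 2 = 0) (h1 : 8 * k + 14 ≤ l) (h2 : l ≤ 12 * k + 18) (h3 : 8 * k + 13 ≤ l + 1) (h4 : l + 1 ≤ 12 * k + 17) :
    X k l + X k (l + 1) + Y k l = 36 * k + 57 ∧ WY k (Y k l) = l ∧ Y k l < 24 * k + 38 ∧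
    NV (0) (12 * k + 19) (18 * k + 28) (2 * k + 3) (X k l) + NV (0) (12 * k + 19) (18 * k + 28) (2 * k + 3) (X k (l + 1)) +
      NE (0) (12 * k + 19) (18 * k + 28) (2 * k + 3) (Y k l) + (if l = 0 ∨ l + 1 = 24 * k + 38 then (1 : ℤ) else 0) = 8 := by
  have e1 := X_e2 k l (by omega) (by omega) (by omega)
  have e2 := X_o2 k (l + 1) (by omega) (by omega) (by omega)
  refine fin k l _ _ 3 3 2 0 e1 e2 (by omega) ?_ (by omega)
    ((nv_val _ _ _ _ _ 1 1 0 1 (if_pos (by omega)) (if_pos (by omega)) (if_neg (by omega)) (if_pos (by omega))).trans (by norm_num))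
    ((nv_val _ _ _ _ _ 1 1 0 1 (if_pos (by omega)) (if_pos (by omega)) (if_neg (by omega)) (if_pos (by omega))).trans (by norm_num))
    ((ne_val _ _ _ _ _ 1 0 0 1 (if_pos (by omega)) (if_neg (by omega)) (if_neg (by omega)) (if_pos (by omega))).trans (by norm_num))
    (if_neg (by omega)) (by norm_num)
  unfold WY
  rw [if_neg (by omega), if_neg (by omega), if_neg (by omega), if_neg (by omega), if_pos (by omega)]
  omega

theorem lf_e2o3 (k l : ℕ) (hp : l % 2 = 0) (h1 : 8 * k + 14 ≤ l) (h2 : l ≤ 12 * k + 18) (h3 : 12 * k + 19 ≤ l + 1) (h4 : l + 1 ≤ 20 * k + 29) :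
    X k l + X k (l + 1) + Y k l = 36 * k + 57 ∧ WY k (Y k l) = l ∧ Y k l < 24 * k + 38 ∧
    NV (0) (12 * k + 19) (18 * k + 28) (2 * k + 3) (X k l) + NV (0) (12 * k + 19) (18 * k + 28) (2 * k + 3) (X k (l + 1)) +
      NE (0) (12 * k + 19) (18 * k + 28) (2 * k + 3) (Y k l) + (if l = 0 ∨ l + 1 = 24 * k + 38 then (1 : ℤ) else 0) = 8 := by
  have e1 := X_e2 k l (by omega) (by omega) (by omega)
  have e2 := X_o3 k (l + 1) (by omega) (by omega) (by omega)
  refine fin k l _ _ 3 2 3 0 e1 e2 (by omega) ?_ (by omega)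
    ((nv_val _ _ _ _ _ 1 1 0 1 (if_pos (by omega)) (if_pos (by omega)) (if_neg (by omega)) (if_pos (by omega))).trans (by norm_num))
    ((nv_val _ _ _ _ _ 1 0 0 1 (if_pos (by omega)) (if_neg (by omega)) (if_neg (by omega)) (if_pos (by omega))).trans (by norm_num))
    ((ne_val _ _ _ _ _ 1 1 0 1 (if_pos (by omega)) (if_pos (by omega)) (if_neg (by omega)) (if_pos (by omega))).trans (by norm_num))
    (if_neg (by omega)) (by norm_num)
  unfold WY
  rw [if_neg (by omega), if_neg (by omega), if_neg (by omega), if_neg (by omega), if_neg (by omega), if_neg (by omega), if_pos (by omega)]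
  omega

theorem lf_e3o3 (k l : ℕ) (hp : l % 2 = 0) (h1 : 12 * k + 20 ≤ l) (h2 : l ≤ 14 * k + 20) (h3 : 12 * k + 19 ≤ l + 1) (h4 : l + 1 ≤ 20 * k + 29) :
    X k l + X k (l + 1) + Y k l = 36 * k + 57 ∧ WY k (Y k l) = l ∧ Y k l < 24 * k + 38 ∧
    NV (0) (12 * k + 19) (18 * k + 28) (2 * k + 3) (X k l) + NV (0) (12 * k + 19) (18 * k + 28) (2 * k + 3) (X k (l + 1)) +
      NE (0) (12 * k + 19) (18 * k + 28) (2 * k + 3) (Y k l) + (if l = 0 ∨ l + 1 = 24 * k + 38 then (1 : ℤ) else 0) = 8 := by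
  have e1 := X_e3 k l (by omega) (by omega) (by omega)
  have e2 := X_o3 k (l + 1) (by omega) (by omega) (by omega)
  refine fin k l _ _ 4 2 2 0 e1 e2 (by omega) ?_ (by omega)
    ((nv_val _ _ _ _ _ 1 1 1 1 (if_pos (by omega)) (if_pos (by omega)) (if_pos (by omega)) (if_pos (by omega))).trans (by norm_num))
    ((nv_val _ _ _ _ _ 1 0 0 1 (if_pos (by omega)) (if_neg (by omega)) (if_neg (by omega)) (if_pos (by omega))).trans (by norm_num))
    ((ne_val _ _ _ _ _ 1 0 0 1 (if_pos (by omega)) (if_neg (by omega)) (if_neg (by omega)) (if_pos (by omega))).trans (by norm_num))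
    (if_neg (by omega)) (by norm_num)
  unfold WY
  rw [if_neg (by omega), if_neg (by omega), if_neg (by omega), if_pos (by omega)]
  omega

theorem lf_e4o3 (k l : ℕ) (hp : l % 2 = 0) (h1 : 14 * k + 22 ≤ l) (h2 : l ≤ 24 * k + 36) (h3 : 12 * k + 19 ≤ l + 1) (h4 : l + 1 ≤ 20 * k + 29) :
    X k l + X k (l + 1) + Y k l = 36 * k + 57 ∧ WY k (Y k l) = l ∧ Y k l < 24 * k + 38 ∧
    NV (0) (12 * k + 19) (18 * k + 28) (2 * k + 3) (X k l) + NV (0) (12 * k + 19) (18 * k + 28) (2 * k + 3) (X k (l + 1)) +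
      NE (0) (12 * k + 19) (18 * k + 28) (2 * k + 3) (Y k l) + (if l = 0 ∨ l + 1 = 24 * k + 38 then (1 : ℤ) else 0) = 8 := by
  have e1 := X_e4 k l (by omega) (by omega) (by omega)
  have e2 := X_o3 k (l + 1) (by omega) (by omega) (by omega)
  refine fin k l _ _ 2 2 4 0 e1 e2 (by omega) ?_ (by omega)
    ((nv_val _ _ _ _ _ 1 0 0 1 (if_pos (by omega)) (if_neg (by omega)) (if_neg (by omega)) (if_pos (by omega))).trans (by norm_num))
    ((nv_val _ _ _ _ _ 1 0 0 1 (if_pos (by omega)) (if_neg (by omega)) (if_neg (by omega)) (if_pos (by omega))).trans (by norm_num))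
    ((ne_val _ _ _ _ _ 1 1 1 1 (if_pos (by omega)) (if_pos (by omega)) (if_pos (by omega)) (if_pos (by omega))).trans (by norm_num))
    (if_neg (by omega)) (by norm_num)
  unfold WY
  rw [if_neg (by omega), if_neg (by omega), if_neg (by omega), if_neg (by omega), if_neg (by omega), if_neg (by omega), if_neg (by omega), if_neg (by omega), if_neg (by omega)]
  omega

theorem lf_e4o4 (k l : ℕ) (hp : l % 2 = 0) (h1 : 14 * k + 22 ≤ l) (h2 : l ≤ 24 * k + 36) (h3 : 20 * k + 31 ≤ l + 1) (h4 : l + 1 ≤ 24 * k + 37) :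
    X k l + X k (l + 1) + Y k l = 36 * k + 57 ∧ WY k (Y k l) = l ∧ Y k l < 24 * k + 38 ∧
    NV (0) (12 * k + 19) (18 * k + 28) (2 * k + 3) (X k l) + NV (0) (12 * k + 19) (18 * k + 28) (2 * k + 3) (X k (l + 1)) +
      NE (0) (12 * k + 19) (18 * k + 28) (2 * k + 3) (Y k l) + (if l = 0 ∨ l + 1 = 24 * k + 38 then (1 : ℤ) else 0) = 8 := by
  have e1 := X_e4 k l (by omega) (by omega) (by omega)
  have e2 := X_o4 k (l + 1) (by omega) (by omega) (by omega)
  refine fin k l _ _ 2 4 2 0 e1 e2 (by omega) ?_ (by omega)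
    ((nv_val _ _ _ _ _ 1 0 0 1 (if_pos (by omega)) (if_neg (by omega)) (if_neg (by omega)) (if_pos (by omega))).trans (by norm_num))
    ((nv_val _ _ _ _ _ 1 1 1 1 (if_pos (by omega)) (if_pos (by omega)) (if_pos (by omega)) (if_pos (by omega))).trans (by norm_num))
    ((ne_val _ _ _ _ _ 1 0 0 1 (if_pos (by omega)) (if_neg (by omega)) (if_neg (by omega)) (if_pos (by omega))).trans (by norm_num))
    (if_neg (by omega)) (by norm_num)
  unfold WY
  rw [if_neg (by omega), if_neg (by omega), if_neg (by omega), if_neg (by omega), if_neg (by omega), if_pos (by omega)]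
  omega

theorem lf_o0e0 (k l : ℕ) (hp : l % 2 = 1) (h1 : 1 ≤ l) (h2 : l ≤ 6 * k + 9) (h3 : 2 ≤ l + 1) (h4 : l + 1 ≤ 4 * k + 6) :
    X k l + X k (l + 1) + Y k l = 36 * k + 57 ∧ WY k (Y k l) = l ∧ Y k l < 24 * k + 38 ∧
    NV (0) (12 * k + 19) (18 * k + 28) (2 * k + 3) (X k l) + NV (0) (12 * k + 19) (18 * k + 28) (2 * k + 3) (X k (l + 1)) +
      NE (0) (12 * k + 19) (18 * k + 28) (2 * k + 3) (Y k l) + (if l = 0 ∨ l + 1 = 24 * k + 38 then (1 : ℤ) else 0) = 8 := by
  have e1 := X_o0 k l (by omega) (by omega) (by omega)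
  have e2 := X_e0 k (l + 1) (by omega) (by omega) (by omega)
  refine fin k l _ _ 4 1 3 0 e1 e2 (by omega) ?_ (by omega)
    ((nv_val _ _ _ _ _ 1 1 1 1 (if_pos (by omega)) (if_pos (by omega)) (if_pos (by omega)) (if_pos (by omega))).trans (by norm_num))
    ((nv_val _ _ _ _ _ 1 0 0 0 (if_pos (by omega)) (if_neg (by omega)) (if_neg (by omega)) (if_neg (by omega))).trans (by norm_num))
    ((ne_val _ _ _ _ _ 1 1 0 1 (if_pos (by omega)) (if_pos (by omega)) (if_neg (by omega)) (if_pos (by omega))).trans (by norm_num))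
    (if_neg (by omega)) (by norm_num)
  unfold WY
  rw [if_neg (by omega), if_neg (by omega), if_neg (by omega), if_neg (by omega), if_neg (by omega), if_neg (by omega), if_neg (by omega), if_neg (by omega), if_pos (by omega)]
  omega

theorem lf_o0e1 (k l : ℕ) (hp : l % 2 = 1) (h1 : 1 ≤ l) (h2 : l ≤ 6 * k + 9) (h3 : 4 * k + 8 ≤ l + 1) (h4 : l + 1 ≤ 8 * k + 12) :
    X k l + X k (l + 1) + Y k l = 36 * k + 57 ∧ WY k (Y k l) = l ∧ Y k l < 24 * k + 38 ∧
    NV (0) (12 * k + 19) (18 * k + 28) (2 * k + 3) (X k l) + NV (0) (12 * k + 19) (18 * k + 28) (2 * k + 3) (X k (l + 1)) +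
      NE (0) (12 * k + 19) (18 * k + 28) (2 * k + 3) (Y k l) + (if l = 0 ∨ l + 1 = 24 * k + 38 then (1 : ℤ) else 0) = 8 := by
  have e1 := X_o0 k l (by omega) (by omega) (by omega)
  have e2 := X_e1 k (l + 1) (by omega) (by omega) (by omega)
  refine fin k l _ _ 4 3 1 0 e1 e2 (by omega) ?_ (by omega)
    ((nv_val _ _ _ _ _ 1 1 1 1 (if_pos (by omega)) (if_pos (by omega)) (if_pos (by omega)) (if_pos (by omega))).trans (by norm_num))
    ((nv_val _ _ _ _ _ 1 1 0 1 (if_pos (by omega)) (if_pos (by omega)) (if_neg (by omega)) (if_pos (by omega))).trans (by norm_num))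
    ((ne_val _ _ _ _ _ 1 0 0 0 (if_pos (by omega)) (if_neg (by omega)) (if_neg (by omega)) (if_neg (by omega))).trans (by norm_num))
    (if_neg (by omega)) (by norm_num)
  unfold WY
  rw [if_pos (by omega)]
  omega

theorem lf_o1e1 (k l : ℕ) (hp : l % 2 = 1) (h1 : 6 * k + 11 ≤ l) (h2 : l ≤ 8 * k + 11) (h3 : 4 * k + 8 ≤ l + 1) (h4 : l + 1 ≤ 8 * k + 12) :
    X k l + X k (l + 1) + Y k l = 36 * k + 57 ∧ WY k (Y k l) = l ∧ Y k l < 24 * k + 38 ∧
    NV (0) (12 * k + 19) (18 * k + 28) (2 * k + 3) (X k l) + NV (0) (12 * k + 19) (18 * k + 28) (2 * k + 3) (X k (l + 1)) +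
      NE (0) (12 * k + 19) (18 * k + 28) (2 * k + 3) (Y k l) + (if l = 0 ∨ l + 1 = 24 * k + 38 then (1 : ℤ) else 0) = 8 := by
  have e1 := X_o1 k l (by omega) (by omega) (by omega)
  have e2 := X_e1 k (l + 1) (by omega) (by omega) (by omega)
  refine fin k l _ _ 2 3 3 0 e1 e2 (by omega) ?_ (by omega)
    ((nv_val _ _ _ _ _ 1 0 0 1 (if_pos (by omega)) (if_neg (by omega)) (if_neg (by omega)) (if_pos (by omega))).trans (by norm_num))
    ((nv_val _ _ _ _ _ 1 1 0 1 (if_pos (by omega)) (if_pos (by omega)) (if_neg (by omega)) (if_pos (by omega))).trans (by norm_num))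
    ((ne_val _ _ _ _ _ 1 1 0 1 (if_pos (by omega)) (if_pos (by omega)) (if_neg (by omega)) (if_pos (by omega))).trans (by norm_num))
    (if_neg (by omega)) (by norm_num)
  unfold WY
  rw [if_neg (by omega), if_neg (by omega), if_neg (by omega), if_neg (by omega), if_neg (by omega), if_neg (by omega), if_neg (by omega), if_pos (by omega)]
  omega

theorem lf_o2e2 (k l : ℕ) (hp : l % 2 = 1) (h1 : 8 * k + 13 ≤ l) (h2 : l ≤ 12 * k + 17) (h3 : 8 * k + 14 ≤ l + 1) (h4 : l + 1 ≤ 12 * k + 18) :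
    X k l + X k (l + 1) + Y k l = 36 * k + 57 ∧ WY k (Y k l) = l ∧ Y k l < 24 * k + 38 ∧
    NV (0) (12 * k + 19) (18 * k + 28) (2 * k + 3) (X k l) + NV (0) (12 * k + 19) (18 * k + 28) (2 * k + 3) (X k (l + 1)) +
      NE (0) (12 * k + 19) (18 * k + 28) (2 * k + 3) (Y k l) + (if l = 0 ∨ l + 1 = 24 * k + 38 then (1 : ℤ) else 0) = 8 := by
  have e1 := X_o2 k l (by omega) (by omega) (by omega)
  have e2 := X_e2 k (l + 1) (by omega) (by omega) (by omega)
  refine fin k l _ _ 3 3 2 0 e1 e2 (by omega) ?_ (by omega)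
    ((nv_val _ _ _ _ _ 1 1 0 1 (if_pos (by omega)) (if_pos (by omega)) (if_neg (by omega)) (if_pos (by omega))).trans (by norm_num))
    ((nv_val _ _ _ _ _ 1 1 0 1 (if_pos (by omega)) (if_pos (by omega)) (if_neg (by omega)) (if_pos (by omega))).trans (by norm_num))
    ((ne_val _ _ _ _ _ 1 0 0 1 (if_pos (by omega)) (if_neg (by omega)) (if_neg (by omega)) (if_pos (by omega))).trans (by norm_num))
    (if_neg (by omega)) (by norm_num)
  unfold WY
  rw [if_neg (by omega), if_neg (by omega), if_neg (by omega), if_neg (by omega), if_pos (by omega)]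
  omega

theorem lf_o3e3 (k l : ℕ) (hp : l % 2 = 1) (h1 : 12 * k + 19 ≤ l) (h2 : l ≤ 20 * k + 29) (h3 : 12 * k + 20 ≤ l + 1) (h4 : l + 1 ≤ 14 * k + 20) :
    X k l + X k (l + 1) + Y k l = 36 * k + 57 ∧ WY k (Y k l) = l ∧ Y k l < 24 * k + 38 ∧
    NV (0) (12 * k + 19) (18 * k + 28) (2 * k + 3) (X k l) + NV (0) (12 * k + 19) (18 * k + 28) (2 * k + 3) (X k (l + 1)) +
      NE (0) (12 * k + 19) (18 * k + 28) (2 * k + 3) (Y k l) + (if l = 0 ∨ l + 1 = 24 * k + 38 then (1 : ℤ) else 0) = 8 := by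
  have e1 := X_o3 k l (by omega) (by omega) (by omega)
  have e2 := X_e3 k (l + 1) (by omega) (by omega) (by omega)
  refine fin k l _ _ 2 4 2 0 e1 e2 (by omega) ?_ (by omega)
    ((nv_val _ _ _ _ _ 1 0 0 1 (if_pos (by omega)) (if_neg (by omega)) (if_neg (by omega)) (if_pos (by omega))).trans (by norm_num))
    ((nv_val _ _ _ _ _ 1 1 1 1 (if_pos (by omega)) (if_pos (by omega)) (if_pos (by omega)) (if_pos (by omega))).trans (by norm_num))
    ((ne_val _ _ _ _ _ 1 0 0 1 (if_pos (by omega)) (if_neg (by omega)) (if_neg (by omega)) (if_pos (by omega))).trans (by norm_num))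
    (if_neg (by omega)) (by norm_num)
  unfold WY
  rw [if_neg (by omega), if_neg (by omega), if_neg (by omega), if_pos (by omega)]
  omega

theorem lf_o3e4 (k l : ℕ) (hp : l % 2 = 1) (h1 : 12 * k + 19 ≤ l) (h2 : l ≤ 20 * k + 29) (h3 : 14 * k + 22 ≤ l + 1) (h4 : l + 1 ≤ 24 * k + 36) :
    X k l + X k (l + 1) + Y k l = 36 * k + 57 ∧ WY k (Y k l) = l ∧ Y k l < 24 * k + 38 ∧
    NV (0) (12 * k + 19) (18 * k + 28) (2 * k + 3) (X k l) + NV (0) (12 * k + 19) (18 * k + 28) (2 * k + 3) (X k (l + 1)) +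
      NE (0) (12 * k + 19) (18 * k + 28) (2 * k + 3) (Y k l) + (if l = 0 ∨ l + 1 = 24 * k + 38 then (1 : ℤ) else 0) = 8 := by
  have e1 := X_o3 k l (by omega) (by omega) (by omega)
  have e2 := X_e4 k (l + 1) (by omega) (by omega) (by omega)
  refine fin k l _ _ 2 2 4 0 e1 e2 (by omega) ?_ (by omega)
    ((nv_val _ _ _ _ _ 1 0 0 1 (if_pos (by omega)) (if_neg (by omega)) (if_neg (by omega)) (if_pos (by omega))).trans (by norm_num))
    ((nv_val _ _ _ _ _ 1 0 0 1 (if_pos (by omega)) (if_neg (by omega)) (if_neg (by omega)) (if_pos (by omega))).trans (by norm_num))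
    ((ne_val _ _ _ _ _ 1 1 1 1 (if_pos (by omega)) (if_pos (by omega)) (if_pos (by omega)) (if_pos (by omega))).trans (by norm_num))
    (if_neg (by omega)) (by norm_num)
  unfold WY
  rw [if_neg (by omega), if_neg (by omega), if_neg (by omega), if_neg (by omega), if_neg (by omega), if_neg (by omega), if_neg (by omega), if_neg (by omega), if_neg (by omega)]
  omega

theorem lf_o4e4 (k l : ℕ) (hp : l % 2 = 1) (h1 : 20 * k + 31 ≤ l) (h2 : l ≤ 24 * k + 37) (h3 : 14 * k + 22 ≤ l + 1) (h4 : l + 1 ≤ 24 * k + 36) :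
    X k l + X k (l + 1) + Y k l = 36 * k + 57 ∧ WY k (Y k l) = l ∧ Y k l < 24 * k + 38 ∧
    NV (0) (12 * k + 19) (18 * k + 28) (2 * k + 3) (X k l) + NV (0) (12 * k + 19) (18 * k + 28) (2 * k + 3) (X k (l + 1)) +
      NE (0) (12 * k + 19) (18 * k + 28) (2 * k + 3) (Y k l) + (if l = 0 ∨ l + 1 = 24 * k + 38 then (1 : ℤ) else 0) = 8 := by
  have e1 := X_o4 k l (by omega) (by omega) (by omega)
  have e2 := X_e4 k (l + 1) (by omega) (by omega) (by omega)
  refine fin k l _ _ 4 2 2 0 e1 e2 (by omega) ?_ (by omega)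
    ((nv_val _ _ _ _ _ 1 1 1 1 (if_pos (by omega)) (if_pos (by omega)) (if_pos (by omega)) (if_pos (by omega))).trans (by norm_num))
    ((nv_val _ _ _ _ _ 1 0 0 1 (if_pos (by omega)) (if_neg (by omega)) (if_neg (by omega)) (if_pos (by omega))).trans (by norm_num))
    ((ne_val _ _ _ _ _ 1 0 0 1 (if_pos (by omega)) (if_neg (by omega)) (if_neg (by omega)) (if_pos (by omega))).trans (by norm_num))
    (if_neg (by omega)) (by norm_num)
  unfold WY
  rw [if_neg (by omega), if_neg (by omega), if_neg (by omega), if_neg (by omega), if_neg (by omega), if_pos (by omega)]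
  omega

theorem lf_o4t0 (k l : ℕ) (h0 : l + 1 = 24 * k + 38) :
    X k l + X k (l + 1) + Y k l = 36 * k + 57 ∧ WY k (Y k l) = l ∧ Y k l < 24 * k + 38 ∧
    NV (0) (12 * k + 19) (18 * k + 28) (2 * k + 3) (X k l) + NV (0) (12 * k + 19) (18 * k + 28) (2 * k + 3) (X k (l + 1)) +
      NE (0) (12 * k + 19) (18 * k + 28) (2 * k + 3) (Y k l) + (if l = 0 ∨ l + 1 = 24 * k + 38 then (1 : ℤ) else 0) = 8 := by
  have e1 := X_o4 k l (by omega) (by omega) (by omega)
  have e2 := (show X k (l + 1) = 12 * k + 19 by rw [h0]; exact X_last k)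
  refine fin k l _ _ 4 2 1 1 e1 e2 (by omega) ?_ (by omega)
    ((nv_val _ _ _ _ _ 1 1 1 1 (if_pos (by omega)) (if_pos (by omega)) (if_pos (by omega)) (if_pos (by omega))).trans (by norm_num))
    ((nv_val _ _ _ _ _ 1 0 0 1 (if_pos (by omega)) (if_neg (by omega)) (if_neg (by omega)) (if_pos (by omega))).trans (by norm_num))
    ((ne_val _ _ _ _ _ 1 0 0 0 (if_pos (by omega)) (if_neg (by omega)) (if_neg (by omega)) (if_neg (by omega))).trans (by norm_num))
    (if_pos (by omega)) (by norm_num)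
  unfold WY
  rw [if_neg (by omega), if_pos (by omega)]
  omega

theorem main (k : ℕ) : ∀ l < 24 * k + 38, X k l + X k (l + 1) + Y k l = 36 * k + 57 ∧ WY k (Y k l) = l ∧ Y k l < 24 * k + 38 ∧
    NV (0) (12 * k + 19) (18 * k + 28) (2 * k + 3) (X k l) + NV (0) (12 * k + 19) (18 * k + 28) (2 * k + 3) (X k (l + 1)) +
      NE (0) (12 * k + 19) (18 * k + 28) (2 * k + 3) (Y k l) + (if l = 0 ∨ l + 1 = 24 * k + 38 then (1 : ℤ) else 0) = 8 := by
  intro l hl
  by_cases h0 : l = 0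
  · skip
    exact lf_z0o0 k l h0
  rcases Nat.mod_two_eq_zero_or_one l with hp | hp
  · skip
    by_cases q0 : l ≤ 4 * k + 6
    · skip
      exact lf_e0o0 k l (by omega) (by omega) (by omega) (by omega) (by omega)
    by_cases q1 : l ≤ 8 * k + 12
    · skip
      by_cases r0 : l + 1 ≤ 6 * k + 9
      · skip
        exact lf_e1o0 k l (by omega) (by omega) (by omega) (by omega) (by omega)
      by_cases r1 : l + 1 ≤ 8 * k + 11
      · skip
        exact lf_e1o1 k l (by omega) (by omega) (by omega) (by omega) (by omega)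
      exact lf_e1o2 k l (by omega) (by omega) (by omega) (by omega) (by omega)
    by_cases q2 : l ≤ 12 * k + 18
    · skip
      by_cases r0 : l + 1 ≤ 12 * k + 17
      · skip
        exact lf_e2o2 k l (by omega) (by omega) (by omega) (by omega) (by omega)
      exact lf_e2o3 k l (by omega) (by omega) (by omega) (by omega) (by omega)
    by_cases q3 : l ≤ 14 * k + 20
    · skip
      exact lf_e3o3 k l (by omega) (by omega) (by omega) (by omega) (by omega)
    by_cases r0 : l + 1 ≤ 20 * k + 29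
    · skip
      exact lf_e4o3 k l (by omega) (by omega) (by omega) (by omega) (by omega)
    exact lf_e4o4 k l (by omega) (by omega) (by omega) (by omega) (by omega)
  · skip
    by_cases q0 : l ≤ 6 * k + 9
    · skip
      by_cases r0 : l + 1 ≤ 4 * k + 6
      · skip
        exact lf_o0e0 k l (by omega) (by omega) (by omega) (by omega) (by omega)
      exact lf_o0e1 k l (by omega) (by omega) (by omega) (by omega) (by omega)
    by_cases q1 : l ≤ 8 * k + 11
    · skip
      exact lf_o1e1 k l (by omega) (by omega) (by omega) (by omega) (by omega)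
    by_cases q2 : l ≤ 12 * k + 17
    · skip
      exact lf_o2e2 k l (by omega) (by omega) (by omega) (by omega) (by omega)
    by_cases q3 : l ≤ 20 * k + 29
    · skip
      by_cases r0 : l + 1 ≤ 14 * k + 20
      · skip
        exact lf_o3e3 k l (by omega) (by omega) (by omega) (by omega) (by omega)
      exact lf_o3e4 k l (by omega) (by omega) (by omega) (by omega) (by omega)
    by_cases r0 : l + 1 ≤ 24 * k + 36
    · skip
      exact lf_o4e4 k l (by omega) (by omega) (by omega) (by omega) (by omega)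
    exact lf_o4t0 k l (by omega)

theorem fam38_emt (h k : ℕ) (hh : 1 ≤ h) :
    EdgeMagicTotal (pathGraph (2 * h) □ pathGraph (24 * k + 38)) := by
  have hA : X k 0 = 0 := X_zero k
  have hB : X k (24 * k + 38) = 12 * k + 19 := X_last k
  have hX1 : X k 1 = 18 * k + 29 := by
    rw [X_o0 k 1 (by omega) (by omega) (by omega)]
    omega
  have hXn : X k (24 * k + 38 - 1 + 1) = 12 * k + 19 := by
    rw [show 24 * k + 38 - 1 + 1 = 24 * k + 38 by omega]; exact hB
  have hC : Y k 0 = 18 * k + 28 := by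
    have := (main k 0 (by omega)).1
    rw [Nat.zero_add, hA, hX1] at this
    omega
  have hXm : X k (24 * k + 38 - 1) = 24 * k + 38 ∨ True := Or.inr trivial
  have hD : Y k (24 * k + 38 - 1) = 2 * k + 3 := by
    have h1 := (main k (24 * k + 38 - 1) (by omega)).1
    have h2 := X_o4 k (24 * k + 38 - 1) (by omega) (by omega) (by omega)
    rw [hXn] at h1
    omega
  refine win_emt h (24 * k + 38) hh (by omega) (X k) (Y k) (36 * k + 57) 8 (0) (12 * k + 19) (18 * k + 28) (2 * k + 3)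
    hA hB hC hD (fun l hl => (WX_X k l hl).2) (fun l hl => (main k l hl).2.2.1)
    (fun l hl => (main k l hl).1) ?_ ?_ ?_ ?_ ?_
  · intro x hx y hy hxy
    rw [← (WX_X k x hx).1, hxy, (WX_X k y hy).1]
  · intro x hx y hy hxy
    rw [← (main k x hx).2.1, hxy, (main k y hy).2.1]
  · have := (main k 0 (by omega)).2.2.2
    rw [Nat.zero_add, hA, hC, if_pos (Or.inl rfl)] at this
    exact this
  · have := (main k (24 * k + 38 - 1) (by omega)).2.2.2
    rw [hXn, hD, if_pos (Or.inr (by omega))] at this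
    exact this
  · intro l h1 h2
    have := (main k l (by omega)).2.2.2
    rw [if_neg (by omega), add_zero] at this
    exact this

end Run7.h922.Z.Fam38
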