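import Pool.Agent.Run7.h922.Z.WinVal

/-!
An even number of columns and `12 k + 16` rows.
-/

open SimpleGraph Run7.h138

namespace Run7.h922.Z.FamA

/-- the window of level `l` -/
def X (k l : ℕ) : ℕ :=
  if l = 0 then 0 else if l = 12 * k + 16 then 6 * k + 8 else
    if l % 2 = 1 then
      if l ≤ 1 then l / 2 + 6 * k + 9 else
      if l ≤ 6 * k + 5 then 10 * k + 13 - l / 2 else
      if l ≤ 8 * k + 7 then 6 * k + 7 - l / 2 else
      16 * k + 20 - l / 2
    else
      if l ≤ 4 * k + 4 then 2 * k + 4 - l / 2 else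
      if l ≤ 8 * k + 8 then 8 * k + 10 - l / 2 else
      if l ≤ 8 * k + 10 then l / 2 - 4 * k - 4 else
      if l ≤ 10 * k + 12 then 8 * k + 11 - l / 2 else
      12 * k + 17 - l / 2

/-- the window of the edges between the levels `l` and `l + 1` -/
def Y (k l : ℕ) : ℕ := 18 * k + 24 - X k l - X k (l + 1)

theorem X_zero (k : ℕ) : X k 0 = 0 := by
  unfold X
  rw [if_pos rfl]

theorem X_last (k : ℕ) : X k (12 * k + 16) = 6 * k + 8 := by
  unfold X
  rw [if_neg (by omega), if_pos rfl]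

theorem X_o0 (k l : ℕ) (h1 : l % 2 = 1) (h2 : 1 ≤ l) (h3 : l ≤ 1) :
    X k l = l / 2 + 6 * k + 9 := by
  unfold X
  rw [if_neg (by omega), if_neg (by omega), if_pos h1, if_pos (by omega)]

theorem X_o1 (k l : ℕ) (h1 : l % 2 = 1) (h2 : 3 ≤ l) (h3 : l ≤ 6 * k + 5) :
    X k l = 10 * k + 13 - l / 2 := by
  unfold X
  rw [if_neg (by omega), if_neg (by omega), if_pos h1, if_neg (by omega), if_pos (by omega)]

theorem X_o2 (k l : ℕ) (h1 : l % 2 = 1) (h2 : 6 * k + 7 ≤ l) (h3 : l ≤ 8 * k + 7) :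
    X k l = 6 * k + 7 - l / 2 := by
  unfold X
  rw [if_neg (by omega), if_neg (by omega), if_pos h1, if_neg (by omega), if_neg (by omega), if_pos (by omega)]

theorem X_o3 (k l : ℕ) (h1 : l % 2 = 1) (h2 : 8 * k + 9 ≤ l) (h3 : l ≤ 12 * k + 15) :
    X k l = 16 * k + 20 - l / 2 := by
  unfold X
  rw [if_neg (by omega), if_neg (by omega), if_pos h1, if_neg (by omega), if_neg (by omega), if_neg (by omega)]

theorem X_e0 (k l : ℕ) (h1 : l % 2 = 0) (h2 : 2 ≤ l) (h3 : l ≤ 4 * k + 4) :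
    X k l = 2 * k + 4 - l / 2 := by
  unfold X
  rw [if_neg (by omega), if_neg (by omega), if_neg (by omega), if_pos (by omega)]

theorem X_e1 (k l : ℕ) (h1 : l % 2 = 0) (h2 : 4 * k + 6 ≤ l) (h3 : l ≤ 8 * k + 8) :
    X k l = 8 * k + 10 - l / 2 := by
  unfold X
  rw [if_neg (by omega), if_neg (by omega), if_neg (by omega), if_neg (by omega), if_pos (by omega)]

theorem X_e2 (k l : ℕ) (h1 : l % 2 = 0) (h2 : 8 * k + 10 ≤ l) (h3 : l ≤ 8 * k + 10) :
    X k l = l / 2 - 4 * k - 4 := by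
  unfold X
  rw [if_neg (by omega), if_neg (by omega), if_neg (by omega), if_neg (by omega), if_neg (by omega), if_pos (by omega)]

theorem X_e3 (k l : ℕ) (h1 : l % 2 = 0) (h2 : 8 * k + 12 ≤ l) (h3 : l ≤ 10 * k + 12) :
    X k l = 8 * k + 11 - l / 2 := by
  unfold X
  rw [if_neg (by omega), if_neg (by omega), if_neg (by omega), if_neg (by omega), if_neg (by omega), if_neg (by omega), if_pos (by omega)]

theorem X_e4 (k l : ℕ) (h1 : l % 2 = 0) (h2 : 10 * k + 14 ≤ l) (h3 : l ≤ 12 * k + 14) :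
    X k l = 12 * k + 17 - l / 2 := by
  unfold X
  rw [if_neg (by omega), if_neg (by omega), if_neg (by omega), if_neg (by omega), if_neg (by omega), if_neg (by omega), if_neg (by omega)]

theorem X_elim (k : ℕ) {P : ℕ → Prop} (z : P 0) (t : P (12 * k + 16))
    (o0 : ∀ l, l % 2 = 1 → 1 ≤ l → l ≤ 1 → P l)
    (o1 : ∀ l, l % 2 = 1 → 3 ≤ l → l ≤ 6 * k + 5 → P l)
    (o2 : ∀ l, l % 2 = 1 → 6 * k + 7 ≤ l → l ≤ 8 * k + 7 → P l)
    (o3 : ∀ l, l % 2 = 1 → 8 * k + 9 ≤ l → l ≤ 12 * k + 15 → P l)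
    (e0 : ∀ l, l % 2 = 0 → 2 ≤ l → l ≤ 4 * k + 4 → P l)
    (e1 : ∀ l, l % 2 = 0 → 4 * k + 6 ≤ l → l ≤ 8 * k + 8 → P l)
    (e2 : ∀ l, l % 2 = 0 → 8 * k + 10 ≤ l → l ≤ 8 * k + 10 → P l)
    (e3 : ∀ l, l % 2 = 0 → 8 * k + 12 ≤ l → l ≤ 10 * k + 12 → P l)
    (e4 : ∀ l, l % 2 = 0 → 10 * k + 14 ≤ l → l ≤ 12 * k + 14 → P l) :
    ∀ l ≤ 12 * k + 16, P l := by
  intro l hl
  by_cases h0 : l = 0
  · subst h0; exact z
  by_cases hN : l = 12 * k + 16
  · subst hN; exact t
  rcases Nat.mod_two_eq_zero_or_one l with hp | hp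
  · by_cases q0 : l ≤ 4 * k + 4
    · exact e0 l hp (by omega) q0
    by_cases q1 : l ≤ 8 * k + 8
    · exact e1 l hp (by omega) q1
    by_cases q2 : l ≤ 8 * k + 10
    · exact e2 l hp (by omega) q2
    by_cases q3 : l ≤ 10 * k + 12
    · exact e3 l hp (by omega) q3
    exact e4 l hp (by omega) (by omega)
  · by_cases q0 : l ≤ 1
    · exact o0 l hp (by omega) q0
    by_cases q1 : l ≤ 6 * k + 5
    · exact o1 l hp (by omega) q1
    by_cases q2 : l ≤ 8 * k + 7
    · exact o2 l hp (by omega) q2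
    exact o3 l hp (by omega) (by omega)

def WX (k w : ℕ) : ℕ :=
  if w ≤ 0 then 0 else
  if w ≤ 1 then 2 * w + 8 * k + 8 else
  if w ≤ 2 * k + 3 then 4 * k + 8 - 2 * w else
  if w ≤ 3 * k + 4 then 12 * k + 15 - 2 * w else
  if w ≤ 4 * k + 5 then 16 * k + 22 - 2 * w else
  if w ≤ 6 * k + 7 then 16 * k + 20 - 2 * w else
  if w ≤ 6 * k + 8 then 12 * k + 16 else
  if w ≤ 6 * k + 9 then 2 * w - 12 * k - 17 else
  if w ≤ 7 * k + 10 then 24 * k + 34 - 2 * w else
  if w ≤ 10 * k + 12 then 20 * k + 27 - 2 * w else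
  32 * k + 41 - 2 * w

theorem WX_X (k : ℕ) : ∀ l ≤ 12 * k + 16, WX k (X k l) = l ∧ X k l ≤ 12 * k + 16 := by
  refine X_elim k (P := fun l => WX k (X k l) = l ∧ X k l ≤ 12 * k + 16) ?_ ?_ ?_ ?_ ?_ ?_ ?_ ?_ ?_ ?_ ?_
  · show WX k (X k 0) = 0 ∧ X k 0 ≤ 12 * k + 16
    rw [X_zero]
    refine ⟨?_, by omega⟩
    unfold WX
    rw [if_pos (by omega)]
  · show WX k (X k (12 * k + 16)) = 12 * k + 16 ∧ X k (12 * k + 16) ≤ 12 * k + 16
    rw [X_last]
    refine ⟨?_, by omega⟩
    unfold WX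
    rw [if_neg (by omega), if_neg (by omega), if_neg (by omega), if_neg (by omega), if_neg (by omega), if_neg (by omega), if_pos (by omega)]
  · intro l h1 h2 h3
    show WX k (X k l) = l ∧ X k l ≤ 12 * k + 16
    rw [X_o0 k l h1 h2 h3]
    refine ⟨?_, by omega⟩
    unfold WX
    rw [if_neg (by omega), if_neg (by omega), if_neg (by omega), if_neg (by omega), if_neg (by omega), if_neg (by omega), if_neg (by omega), if_pos (by omega)]
    omega
  · intro l h1 h2 h3
    show WX k (X k l) = l ∧ X k l ≤ 12 * k + 16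
    rw [X_o1 k l h1 h2 h3]
    refine ⟨?_, by omega⟩
    unfold WX
    rw [if_neg (by omega), if_neg (by omega), if_neg (by omega), if_neg (by omega), if_neg (by omega), if_neg (by omega), if_neg (by omega), if_neg (by omega), if_neg (by omega), if_pos (by omega)]
    omega
  · intro l h1 h2 h3
    show WX k (X k l) = l ∧ X k l ≤ 12 * k + 16
    rw [X_o2 k l h1 h2 h3]
    refine ⟨?_, by omega⟩
    unfold WX
    rw [if_neg (by omega), if_neg (by omega), if_neg (by omega), if_pos (by omega)]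
    omega
  · intro l h1 h2 h3
    show WX k (X k l) = l ∧ X k l ≤ 12 * k + 16
    rw [X_o3 k l h1 h2 h3]
    refine ⟨?_, by omega⟩
    unfold WX
    rw [if_neg (by omega), if_neg (by omega), if_neg (by omega), if_neg (by omega), if_neg (by omega), if_neg (by omega), if_neg (by omega), if_neg (by omega), if_neg (by omega), if_neg (by omega)]
    omega
  · intro l h1 h2 h3
    show WX k (X k l) = l ∧ X k l ≤ 12 * k + 16
    rw [X_e0 k l h1 h2 h3]
    refine ⟨?_, by omega⟩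
    unfold WX
    rw [if_neg (by omega), if_neg (by omega), if_pos (by omega)]
    omega
  · intro l h1 h2 h3
    show WX k (X k l) = l ∧ X k l ≤ 12 * k + 16
    rw [X_e1 k l h1 h2 h3]
    refine ⟨?_, by omega⟩
    unfold WX
    rw [if_neg (by omega), if_neg (by omega), if_neg (by omega), if_neg (by omega), if_neg (by omega), if_pos (by omega)]
    omega
  · intro l h1 h2 h3
    show WX k (X k l) = l ∧ X k l ≤ 12 * k + 16
    rw [X_e2 k l h1 h2 h3]
    refine ⟨?_, by omega⟩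
    unfold WX
    rw [if_neg (by omega), if_pos (by omega)]
    omega
  · intro l h1 h2 h3
    show WX k (X k l) = l ∧ X k l ≤ 12 * k + 16
    rw [X_e3 k l h1 h2 h3]
    refine ⟨?_, by omega⟩
    unfold WX
    rw [if_neg (by omega), if_neg (by omega), if_neg (by omega), if_neg (by omega), if_pos (by omega)]
    omega
  · intro l h1 h2 h3
    show WX k (X k l) = l ∧ X k l ≤ 12 * k + 16
    rw [X_e4 k l h1 h2 h3]
    refine ⟨?_, by omega⟩
    unfold WX
    rw [if_neg (by omega), if_neg (by omega), if_neg (by omega), if_neg (by omega), if_neg (by omega), if_neg (by omega), if_neg (by omega), if_neg (by omega), if_pos (by omega)]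
    omega

def WY (k w : ℕ) : ℕ :=
  if w ≤ 2 * k + 1 then w + 10 * k + 13 else
  if w ≤ 2 * k + 2 then w + 6 * k + 6 else
  if w ≤ 2 * k + 3 then w + 10 * k + 12 else
  if w ≤ 4 * k + 5 then w + 6 * k + 7 else
  if w ≤ 6 * k + 6 then w - 1 else
  if w ≤ 6 * k + 8 then w + 2 * k + 2 else
  if w ≤ 10 * k + 11 then w - 6 * k - 7 else
  if w ≤ 10 * k + 12 then w - 10 * k - 11 else
  if w ≤ 12 * k + 14 then w - 4 * k - 7 else
  w - 12 * k - 15

theorem fin (k l x x' : ℕ) (v1 v2 v3 v4 : ℤ) (e1 : X k l = x) (e2 : X k (l + 1) = x') (hs : x + x' ≤ 18 * k + 24)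
    (hw : WY k (18 * k + 24 - x - x') = l) (hy : 18 * k + 24 - x - x' < 12 * k + 16)
    (g1 : NV (0) (6 * k + 8) (12 * k + 15) (2 * k + 3) x = v1) (g2 : NV (0) (6 * k + 8) (12 * k + 15) (2 * k + 3) x' = v2)
    (g3 : NE (0) (6 * k + 8) (12 * k + 15) (2 * k + 3) (18 * k + 24 - x - x') = v3)
    (g4 : (if l = 0 ∨ l + 1 = 12 * k + 16 then (1 : ℤ) else 0) = v4) (g5 : v1 + v2 + v3 + v4 = 7) :
    X k l + X k (l + 1) + Y k l = 18 * k + 24 ∧ WY k (Y k l) = l ∧ Y k l < 12 * k + 16 ∧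
    NV (0) (6 * k + 8) (12 * k + 15) (2 * k + 3) (X k l) + NV (0) (6 * k + 8) (12 * k + 15) (2 * k + 3) (X k (l + 1)) +
      NE (0) (6 * k + 8) (12 * k + 15) (2 * k + 3) (Y k l) + (if l = 0 ∨ l + 1 = 12 * k + 16 then (1 : ℤ) else 0) = 7 := by
  have hY : Y k l = 18 * k + 24 - x - x' := by unfold Y; rw [e1, e2]
  rw [hY, e1, e2]
  exact ⟨by omega, hw, hy, by rw [g1, g2, g3, g4]; exact g5⟩

theorem lf_z0o0 (k l : ℕ) (h0 : l = 0) :
    X k l + X k (l + 1) + Y k l = 18 * k + 24 ∧ WY k (Y k l) = l ∧ Y k l < 12 * k + 16 ∧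
    NV (0) (6 * k + 8) (12 * k + 15) (2 * k + 3) (X k l) + NV (0) (6 * k + 8) (12 * k + 15) (2 * k + 3) (X k (l + 1)) +
      NE (0) (6 * k + 8) (12 * k + 15) (2 * k + 3) (Y k l) + (if l = 0 ∨ l + 1 = 12 * k + 16 then (1 : ℤ) else 0) = 7 := by
  have e1 := (show X k l = 0 by rw [h0]; exact X_zero k)
  have e2 := X_o0 k (l + 1) (by omega) (by omega) (by omega)
  refine fin k l _ _ 0 3 3 1 e1 e2 (by omega) ?_ (by omega)
    ((nv_val _ _ _ _ _ 0 0 0 0 (if_neg (by omega)) (if_neg (by omega)) (if_neg (by omega)) (if_neg (by omega))).trans (by norm_num))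
    ((nv_val _ _ _ _ _ 1 1 0 1 (if_pos (by omega)) (if_pos (by omega)) (if_neg (by omega)) (if_pos (by omega))).trans (by norm_num))
    ((ne_val _ _ _ _ _ 1 1 0 1 (if_pos (by omega)) (if_pos (by omega)) (if_neg (by omega)) (if_pos (by omega))).trans (by norm_num))
    (if_pos (by omega)) (by norm_num)
  unfold WY
  rw [if_neg (by omega), if_neg (by omega), if_neg (by omega), if_neg (by omega), if_neg (by omega), if_neg (by omega), if_neg (by omega), if_neg (by omega), if_neg (by omega)]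
  omega

theorem lf_e0o1 (k l : ℕ) (hp : l % 2 = 0) (h1 : 2 ≤ l) (h2 : l ≤ 4 * k + 4) (h3 : 3 ≤ l + 1) (h4 : l + 1 ≤ 6 * k + 5) :
    X k l + X k (l + 1) + Y k l = 18 * k + 24 ∧ WY k (Y k l) = l ∧ Y k l < 12 * k + 16 ∧
    NV (0) (6 * k + 8) (12 * k + 15) (2 * k + 3) (X k l) + NV (0) (6 * k + 8) (12 * k + 15) (2 * k + 3) (X k (l + 1)) +
      NE (0) (6 * k + 8) (12 * k + 15) (2 * k + 3) (Y k l) + (if l = 0 ∨ l + 1 = 12 * k + 16 then (1 : ℤ) else 0) = 7 := by
  have e1 := X_e0 k l (by omega) (by omega) (by omega)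
  have e2 := X_o1 k (l + 1) (by omega) (by omega) (by omega)
  refine fin k l _ _ 1 3 3 0 e1 e2 (by omega) ?_ (by omega)
    ((nv_val _ _ _ _ _ 1 0 0 0 (if_pos (by omega)) (if_neg (by omega)) (if_neg (by omega)) (if_neg (by omega))).trans (by norm_num))
    ((nv_val _ _ _ _ _ 1 1 0 1 (if_pos (by omega)) (if_pos (by omega)) (if_neg (by omega)) (if_pos (by omega))).trans (by norm_num))
    ((ne_val _ _ _ _ _ 1 1 0 1 (if_pos (by omega)) (if_pos (by omega)) (if_neg (by omega)) (if_pos (by omega))).trans (by norm_num))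
    (if_neg (by omega)) (by norm_num)
  unfold WY
  rw [if_neg (by omega), if_neg (by omega), if_neg (by omega), if_neg (by omega), if_neg (by omega), if_neg (by omega), if_pos (by omega)]
  omega

theorem lf_e1o1 (k l : ℕ) (hp : l % 2 = 0) (h1 : 4 * k + 6 ≤ l) (h2 : l ≤ 8 * k + 8) (h3 : 3 ≤ l + 1) (h4 : l + 1 ≤ 6 * k + 5) :
    X k l + X k (l + 1) + Y k l = 18 * k + 24 ∧ WY k (Y k l) = l ∧ Y k l < 12 * k + 16 ∧
    NV (0) (6 * k + 8) (12 * k + 15) (2 * k + 3) (X k l) + NV (0) (6 * k + 8) (12 * k + 15) (2 * k + 3) (X k (l + 1)) +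
      NE (0) (6 * k + 8) (12 * k + 15) (2 * k + 3) (Y k l) + (if l = 0 ∨ l + 1 = 12 * k + 16 then (1 : ℤ) else 0) = 7 := by
  have e1 := X_e1 k l (by omega) (by omega) (by omega)
  have e2 := X_o1 k (l + 1) (by omega) (by omega) (by omega)
  refine fin k l _ _ 2 3 2 0 e1 e2 (by omega) ?_ (by omega)
    ((nv_val _ _ _ _ _ 1 0 0 1 (if_pos (by omega)) (if_neg (by omega)) (if_neg (by omega)) (if_pos (by omega))).trans (by norm_num))
    ((nv_val _ _ _ _ _ 1 1 0 1 (if_pos (by omega)) (if_pos (by omega)) (if_neg (by omega)) (if_pos (by omega))).trans (by norm_num))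
    ((ne_val _ _ _ _ _ 1 0 0 1 (if_pos (by omega)) (if_neg (by omega)) (if_neg (by omega)) (if_pos (by omega))).trans (by norm_num))
    (if_neg (by omega)) (by norm_num)
  unfold WY
  rw [if_neg (by omega), if_neg (by omega), if_neg (by omega), if_neg (by omega), if_pos (by omega)]
  omega

theorem lf_e1o2 (k l : ℕ) (hp : l % 2 = 0) (h1 : 4 * k + 6 ≤ l) (h2 : l ≤ 8 * k + 8) (h3 : 6 * k + 7 ≤ l + 1) (h4 : l + 1 ≤ 8 * k + 7) :
    X k l + X k (l + 1) + Y k l = 18 * k + 24 ∧ WY k (Y k l) = l ∧ Y k l < 12 * k + 16 ∧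
    NV (0) (6 * k + 8) (12 * k + 15) (2 * k + 3) (X k l) + NV (0) (6 * k + 8) (12 * k + 15) (2 * k + 3) (X k (l + 1)) +
      NE (0) (6 * k + 8) (12 * k + 15) (2 * k + 3) (Y k l) + (if l = 0 ∨ l + 1 = 12 * k + 16 then (1 : ℤ) else 0) = 7 := by
  have e1 := X_e1 k l (by omega) (by omega) (by omega)
  have e2 := X_o2 k (l + 1) (by omega) (by omega) (by omega)
  refine fin k l _ _ 2 2 3 0 e1 e2 (by omega) ?_ (by omega)
    ((nv_val _ _ _ _ _ 1 0 0 1 (if_pos (by omega)) (if_neg (by omega)) (if_neg (by omega)) (if_pos (by omega))).trans (by norm_num))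
    ((nv_val _ _ _ _ _ 1 0 0 1 (if_pos (by omega)) (if_neg (by omega)) (if_neg (by omega)) (if_pos (by omega))).trans (by norm_num))
    ((ne_val _ _ _ _ _ 1 1 0 1 (if_pos (by omega)) (if_pos (by omega)) (if_neg (by omega)) (if_pos (by omega))).trans (by norm_num))
    (if_neg (by omega)) (by norm_num)
  unfold WY
  rw [if_neg (by omega), if_neg (by omega), if_neg (by omega), if_neg (by omega), if_neg (by omega), if_neg (by omega), if_neg (by omega), if_neg (by omega), if_pos (by omega)]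
  omega

theorem lf_e1o3 (k l : ℕ) (hp : l % 2 = 0) (h1 : 4 * k + 6 ≤ l) (h2 : l ≤ 8 * k + 8) (h3 : 8 * k + 9 ≤ l + 1) (h4 : l + 1 ≤ 12 * k + 15) :
    X k l + X k (l + 1) + Y k l = 18 * k + 24 ∧ WY k (Y k l) = l ∧ Y k l < 12 * k + 16 ∧
    NV (0) (6 * k + 8) (12 * k + 15) (2 * k + 3) (X k l) + NV (0) (6 * k + 8) (12 * k + 15) (2 * k + 3) (X k (l + 1)) +
      NE (0) (6 * k + 8) (12 * k + 15) (2 * k + 3) (Y k l) + (if l = 0 ∨ l + 1 = 12 * k + 16 then (1 : ℤ) else 0) = 7 := by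
  have e1 := X_e1 k l (by omega) (by omega) (by omega)
  have e2 := X_o3 k (l + 1) (by omega) (by omega) (by omega)
  refine fin k l _ _ 2 4 1 0 e1 e2 (by omega) ?_ (by omega)
    ((nv_val _ _ _ _ _ 1 0 0 1 (if_pos (by omega)) (if_neg (by omega)) (if_neg (by omega)) (if_pos (by omega))).trans (by norm_num))
    ((nv_val _ _ _ _ _ 1 1 1 1 (if_pos (by omega)) (if_pos (by omega)) (if_pos (by omega)) (if_pos (by omega))).trans (by norm_num))
    ((ne_val _ _ _ _ _ 1 0 0 0 (if_pos (by omega)) (if_neg (by omega)) (if_neg (by omega)) (if_neg (by omega))).trans (by norm_num))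
    (if_neg (by omega)) (by norm_num)
  unfold WY
  rw [if_neg (by omega), if_pos (by omega)]
  omega

theorem lf_e2o3 (k l : ℕ) (hp : l % 2 = 0) (h1 : 8 * k + 10 ≤ l) (h2 : l ≤ 8 * k + 10) (h3 : 8 * k + 9 ≤ l + 1) (h4 : l + 1 ≤ 12 * k + 15) :
    X k l + X k (l + 1) + Y k l = 18 * k + 24 ∧ WY k (Y k l) = l ∧ Y k l < 12 * k + 16 ∧
    NV (0) (6 * k + 8) (12 * k + 15) (2 * k + 3) (X k l) + NV (0) (6 * k + 8) (12 * k + 15) (2 * k + 3) (X k (l + 1)) +
      NE (0) (6 * k + 8) (12 * k + 15) (2 * k + 3) (Y k l) + (if l = 0 ∨ l + 1 = 12 * k + 16 then (1 : ℤ) else 0) = 7 := by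
  have e1 := X_e2 k l (by omega) (by omega) (by omega)
  have e2 := X_o3 k (l + 1) (by omega) (by omega) (by omega)
  refine fin k l _ _ 1 3 3 0 e1 e2 (by omega) ?_ (by omega)
    ((nv_val _ _ _ _ _ 1 0 0 0 (if_pos (by omega)) (if_neg (by omega)) (if_neg (by omega)) (if_neg (by omega))).trans (by norm_num))
    ((nv_val _ _ _ _ _ 1 1 0 1 (if_pos (by omega)) (if_pos (by omega)) (if_neg (by omega)) (if_pos (by omega))).trans (by norm_num))
    ((ne_val _ _ _ _ _ 1 1 0 1 (if_pos (by omega)) (if_pos (by omega)) (if_neg (by omega)) (if_pos (by omega))).trans (by norm_num))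
    (if_neg (by omega)) (by norm_num)
  unfold WY
  rw [if_neg (by omega), if_neg (by omega), if_neg (by omega), if_neg (by omega), if_neg (by omega), if_pos (by omega)]
  omega

theorem lf_e3o3 (k l : ℕ) (hp : l % 2 = 0) (h1 : 8 * k + 12 ≤ l) (h2 : l ≤ 10 * k + 12) (h3 : 8 * k + 9 ≤ l + 1) (h4 : l + 1 ≤ 12 * k + 15) :
    X k l + X k (l + 1) + Y k l = 18 * k + 24 ∧ WY k (Y k l) = l ∧ Y k l < 12 * k + 16 ∧
    NV (0) (6 * k + 8) (12 * k + 15) (2 * k + 3) (X k l) + NV (0) (6 * k + 8) (12 * k + 15) (2 * k + 3) (X k (l + 1)) +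
      NE (0) (6 * k + 8) (12 * k + 15) (2 * k + 3) (Y k l) + (if l = 0 ∨ l + 1 = 12 * k + 16 then (1 : ℤ) else 0) = 7 := by
  have e1 := X_e3 k l (by omega) (by omega) (by omega)
  have e2 := X_o3 k (l + 1) (by omega) (by omega) (by omega)
  refine fin k l _ _ 2 3 2 0 e1 e2 (by omega) ?_ (by omega)
    ((nv_val _ _ _ _ _ 1 0 0 1 (if_pos (by omega)) (if_neg (by omega)) (if_neg (by omega)) (if_pos (by omega))).trans (by norm_num))
    ((nv_val _ _ _ _ _ 1 1 0 1 (if_pos (by omega)) (if_pos (by omega)) (if_neg (by omega)) (if_pos (by omega))).trans (by norm_num))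
    ((ne_val _ _ _ _ _ 1 0 0 1 (if_pos (by omega)) (if_neg (by omega)) (if_neg (by omega)) (if_pos (by omega))).trans (by norm_num))
    (if_neg (by omega)) (by norm_num)
  unfold WY
  rw [if_neg (by omega), if_neg (by omega), if_neg (by omega), if_pos (by omega)]
  omega

theorem lf_e4o3 (k l : ℕ) (hp : l % 2 = 0) (h1 : 10 * k + 14 ≤ l) (h2 : l ≤ 12 * k + 14) (h3 : 8 * k + 9 ≤ l + 1) (h4 : l + 1 ≤ 12 * k + 15) :
    X k l + X k (l + 1) + Y k l = 18 * k + 24 ∧ WY k (Y k l) = l ∧ Y k l < 12 * k + 16 ∧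
    NV (0) (6 * k + 8) (12 * k + 15) (2 * k + 3) (X k l) + NV (0) (6 * k + 8) (12 * k + 15) (2 * k + 3) (X k (l + 1)) +
      NE (0) (6 * k + 8) (12 * k + 15) (2 * k + 3) (Y k l) + (if l = 0 ∨ l + 1 = 12 * k + 16 then (1 : ℤ) else 0) = 7 := by
  have e1 := X_e4 k l (by omega) (by omega) (by omega)
  have e2 := X_o3 k (l + 1) (by omega) (by omega) (by omega)
  refine fin k l _ _ 3 3 1 0 e1 e2 (by omega) ?_ (by omega)
    ((nv_val _ _ _ _ _ 1 1 0 1 (if_pos (by omega)) (if_pos (by omega)) (if_neg (by omega)) (if_pos (by omega))).trans (by norm_num))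
    ((nv_val _ _ _ _ _ 1 1 0 1 (if_pos (by omega)) (if_pos (by omega)) (if_neg (by omega)) (if_pos (by omega))).trans (by norm_num))
    ((ne_val _ _ _ _ _ 1 0 0 0 (if_pos (by omega)) (if_neg (by omega)) (if_neg (by omega)) (if_neg (by omega))).trans (by norm_num))
    (if_neg (by omega)) (by norm_num)
  unfold WY
  rw [if_pos (by omega)]
  omega

theorem lf_o0e0 (k l : ℕ) (hp : l % 2 = 1) (h1 : 1 ≤ l) (h2 : l ≤ 1) (h3 : 2 ≤ l + 1) (h4 : l + 1 ≤ 4 * k + 4) :
    X k l + X k (l + 1) + Y k l = 18 * k + 24 ∧ WY k (Y k l) = l ∧ Y k l < 12 * k + 16 ∧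
    NV (0) (6 * k + 8) (12 * k + 15) (2 * k + 3) (X k l) + NV (0) (6 * k + 8) (12 * k + 15) (2 * k + 3) (X k (l + 1)) +
      NE (0) (6 * k + 8) (12 * k + 15) (2 * k + 3) (Y k l) + (if l = 0 ∨ l + 1 = 12 * k + 16 then (1 : ℤ) else 0) = 7 := by
  have e1 := X_o0 k l (by omega) (by omega) (by omega)
  have e2 := X_e0 k (l + 1) (by omega) (by omega) (by omega)
  refine fin k l _ _ 3 1 3 0 e1 e2 (by omega) ?_ (by omega)
    ((nv_val _ _ _ _ _ 1 1 0 1 (if_pos (by omega)) (if_pos (by omega)) (if_neg (by omega)) (if_pos (by omega))).trans (by norm_num))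
    ((nv_val _ _ _ _ _ 1 0 0 0 (if_pos (by omega)) (if_neg (by omega)) (if_neg (by omega)) (if_neg (by omega))).trans (by norm_num))
    ((ne_val _ _ _ _ _ 1 1 0 1 (if_pos (by omega)) (if_pos (by omega)) (if_neg (by omega)) (if_pos (by omega))).trans (by norm_num))
    (if_neg (by omega)) (by norm_num)
  unfold WY
  rw [if_neg (by omega), if_neg (by omega), if_neg (by omega), if_neg (by omega), if_neg (by omega), if_neg (by omega), if_neg (by omega), if_pos (by omega)]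
  omega

theorem lf_o1e0 (k l : ℕ) (hp : l % 2 = 1) (h1 : 3 ≤ l) (h2 : l ≤ 6 * k + 5) (h3 : 2 ≤ l + 1) (h4 : l + 1 ≤ 4 * k + 4) :
    X k l + X k (l + 1) + Y k l = 18 * k + 24 ∧ WY k (Y k l) = l ∧ Y k l < 12 * k + 16 ∧
    NV (0) (6 * k + 8) (12 * k + 15) (2 * k + 3) (X k l) + NV (0) (6 * k + 8) (12 * k + 15) (2 * k + 3) (X k (l + 1)) +
      NE (0) (6 * k + 8) (12 * k + 15) (2 * k + 3) (Y k l) + (if l = 0 ∨ l + 1 = 12 * k + 16 then (1 : ℤ) else 0) = 7 := by
  have e1 := X_o1 k l (by omega) (by omega) (by omega)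
  have e2 := X_e0 k (l + 1) (by omega) (by omega) (by omega)
  refine fin k l _ _ 3 1 3 0 e1 e2 (by omega) ?_ (by omega)
    ((nv_val _ _ _ _ _ 1 1 0 1 (if_pos (by omega)) (if_pos (by omega)) (if_neg (by omega)) (if_pos (by omega))).trans (by norm_num))
    ((nv_val _ _ _ _ _ 1 0 0 0 (if_pos (by omega)) (if_neg (by omega)) (if_neg (by omega)) (if_neg (by omega))).trans (by norm_num))
    ((ne_val _ _ _ _ _ 1 1 0 1 (if_pos (by omega)) (if_pos (by omega)) (if_neg (by omega)) (if_pos (by omega))).trans (by norm_num))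
    (if_neg (by omega)) (by norm_num)
  unfold WY
  rw [if_neg (by omega), if_neg (by omega), if_neg (by omega), if_neg (by omega), if_neg (by omega), if_neg (by omega), if_pos (by omega)]
  omega

theorem lf_o1e1 (k l : ℕ) (hp : l % 2 = 1) (h1 : 3 ≤ l) (h2 : l ≤ 6 * k + 5) (h3 : 4 * k + 6 ≤ l + 1) (h4 : l + 1 ≤ 8 * k + 8) :
    X k l + X k (l + 1) + Y k l = 18 * k + 24 ∧ WY k (Y k l) = l ∧ Y k l < 12 * k + 16 ∧
    NV (0) (6 * k + 8) (12 * k + 15) (2 * k + 3) (X k l) + NV (0) (6 * k + 8) (12 * k + 15) (2 * k + 3) (X k (l + 1)) +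
      NE (0) (6 * k + 8) (12 * k + 15) (2 * k + 3) (Y k l) + (if l = 0 ∨ l + 1 = 12 * k + 16 then (1 : ℤ) else 0) = 7 := by
  have e1 := X_o1 k l (by omega) (by omega) (by omega)
  have e2 := X_e1 k (l + 1) (by omega) (by omega) (by omega)
  refine fin k l _ _ 3 2 2 0 e1 e2 (by omega) ?_ (by omega)
    ((nv_val _ _ _ _ _ 1 1 0 1 (if_pos (by omega)) (if_pos (by omega)) (if_neg (by omega)) (if_pos (by omega))).trans (by norm_num))
    ((nv_val _ _ _ _ _ 1 0 0 1 (if_pos (by omega)) (if_neg (by omega)) (if_neg (by omega)) (if_pos (by omega))).trans (by norm_num))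
    ((ne_val _ _ _ _ _ 1 0 0 1 (if_pos (by omega)) (if_neg (by omega)) (if_neg (by omega)) (if_pos (by omega))).trans (by norm_num))
    (if_neg (by omega)) (by norm_num)
  unfold WY
  rw [if_neg (by omega), if_neg (by omega), if_neg (by omega), if_neg (by omega), if_pos (by omega)]
  omega

theorem lf_o2e1 (k l : ℕ) (hp : l % 2 = 1) (h1 : 6 * k + 7 ≤ l) (h2 : l ≤ 8 * k + 7) (h3 : 4 * k + 6 ≤ l + 1) (h4 : l + 1 ≤ 8 * k + 8) :
    X k l + X k (l + 1) + Y k l = 18 * k + 24 ∧ WY k (Y k l) = l ∧ Y k l < 12 * k + 16 ∧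
    NV (0) (6 * k + 8) (12 * k + 15) (2 * k + 3) (X k l) + NV (0) (6 * k + 8) (12 * k + 15) (2 * k + 3) (X k (l + 1)) +
      NE (0) (6 * k + 8) (12 * k + 15) (2 * k + 3) (Y k l) + (if l = 0 ∨ l + 1 = 12 * k + 16 then (1 : ℤ) else 0) = 7 := by
  have e1 := X_o2 k l (by omega) (by omega) (by omega)
  have e2 := X_e1 k (l + 1) (by omega) (by omega) (by omega)
  refine fin k l _ _ 2 2 3 0 e1 e2 (by omega) ?_ (by omega)
    ((nv_val _ _ _ _ _ 1 0 0 1 (if_pos (by omega)) (if_neg (by omega)) (if_neg (by omega)) (if_pos (by omega))).trans (by norm_num))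
    ((nv_val _ _ _ _ _ 1 0 0 1 (if_pos (by omega)) (if_neg (by omega)) (if_neg (by omega)) (if_pos (by omega))).trans (by norm_num))
    ((ne_val _ _ _ _ _ 1 1 0 1 (if_pos (by omega)) (if_pos (by omega)) (if_neg (by omega)) (if_pos (by omega))).trans (by norm_num))
    (if_neg (by omega)) (by norm_num)
  unfold WY
  rw [if_neg (by omega), if_neg (by omega), if_neg (by omega), if_neg (by omega), if_neg (by omega), if_neg (by omega), if_neg (by omega), if_neg (by omega), if_pos (by omega)]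
  omega

theorem lf_o3e2 (k l : ℕ) (hp : l % 2 = 1) (h1 : 8 * k + 9 ≤ l) (h2 : l ≤ 12 * k + 15) (h3 : 8 * k + 10 ≤ l + 1) (h4 : l + 1 ≤ 8 * k + 10) :
    X k l + X k (l + 1) + Y k l = 18 * k + 24 ∧ WY k (Y k l) = l ∧ Y k l < 12 * k + 16 ∧
    NV (0) (6 * k + 8) (12 * k + 15) (2 * k + 3) (X k l) + NV (0) (6 * k + 8) (12 * k + 15) (2 * k + 3) (X k (l + 1)) +
      NE (0) (6 * k + 8) (12 * k + 15) (2 * k + 3) (Y k l) + (if l = 0 ∨ l + 1 = 12 * k + 16 then (1 : ℤ) else 0) = 7 := by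
  have e1 := X_o3 k l (by omega) (by omega) (by omega)
  have e2 := X_e2 k (l + 1) (by omega) (by omega) (by omega)
  refine fin k l _ _ 4 1 2 0 e1 e2 (by omega) ?_ (by omega)
    ((nv_val _ _ _ _ _ 1 1 1 1 (if_pos (by omega)) (if_pos (by omega)) (if_pos (by omega)) (if_pos (by omega))).trans (by norm_num))
    ((nv_val _ _ _ _ _ 1 0 0 0 (if_pos (by omega)) (if_neg (by omega)) (if_neg (by omega)) (if_neg (by omega))).trans (by norm_num))
    ((ne_val _ _ _ _ _ 1 0 0 1 (if_pos (by omega)) (if_neg (by omega)) (if_neg (by omega)) (if_pos (by omega))).trans (by norm_num))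
    (if_neg (by omega)) (by norm_num)
  unfold WY
  rw [if_neg (by omega), if_neg (by omega), if_neg (by omega), if_neg (by omega), if_neg (by omega), if_pos (by omega)]
  omega

theorem lf_o3e3 (k l : ℕ) (hp : l % 2 = 1) (h1 : 8 * k + 9 ≤ l) (h2 : l ≤ 12 * k + 15) (h3 : 8 * k + 12 ≤ l + 1) (h4 : l + 1 ≤ 10 * k + 12) :
    X k l + X k (l + 1) + Y k l = 18 * k + 24 ∧ WY k (Y k l) = l ∧ Y k l < 12 * k + 16 ∧
    NV (0) (6 * k + 8) (12 * k + 15) (2 * k + 3) (X k l) + NV (0) (6 * k + 8) (12 * k + 15) (2 * k + 3) (X k (l + 1)) +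
      NE (0) (6 * k + 8) (12 * k + 15) (2 * k + 3) (Y k l) + (if l = 0 ∨ l + 1 = 12 * k + 16 then (1 : ℤ) else 0) = 7 := by
  have e1 := X_o3 k l (by omega) (by omega) (by omega)
  have e2 := X_e3 k (l + 1) (by omega) (by omega) (by omega)
  refine fin k l _ _ 3 2 2 0 e1 e2 (by omega) ?_ (by omega)
    ((nv_val _ _ _ _ _ 1 1 0 1 (if_pos (by omega)) (if_pos (by omega)) (if_neg (by omega)) (if_pos (by omega))).trans (by norm_num))
    ((nv_val _ _ _ _ _ 1 0 0 1 (if_pos (by omega)) (if_neg (by omega)) (if_neg (by omega)) (if_pos (by omega))).trans (by norm_num))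
    ((ne_val _ _ _ _ _ 1 0 0 1 (if_pos (by omega)) (if_neg (by omega)) (if_neg (by omega)) (if_pos (by omega))).trans (by norm_num))
    (if_neg (by omega)) (by norm_num)
  unfold WY
  rw [if_neg (by omega), if_neg (by omega), if_neg (by omega), if_pos (by omega)]
  omega

theorem lf_o3e4 (k l : ℕ) (hp : l % 2 = 1) (h1 : 8 * k + 9 ≤ l) (h2 : l ≤ 12 * k + 15) (h3 : 10 * k + 14 ≤ l + 1) (h4 : l + 1 ≤ 12 * k + 14) :
    X k l + X k (l + 1) + Y k l = 18 * k + 24 ∧ WY k (Y k l) = l ∧ Y k l < 12 * k + 16 ∧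
    NV (0) (6 * k + 8) (12 * k + 15) (2 * k + 3) (X k l) + NV (0) (6 * k + 8) (12 * k + 15) (2 * k + 3) (X k (l + 1)) +
      NE (0) (6 * k + 8) (12 * k + 15) (2 * k + 3) (Y k l) + (if l = 0 ∨ l + 1 = 12 * k + 16 then (1 : ℤ) else 0) = 7 := by
  have e1 := X_o3 k l (by omega) (by omega) (by omega)
  have e2 := X_e4 k (l + 1) (by omega) (by omega) (by omega)
  refine fin k l _ _ 3 3 1 0 e1 e2 (by omega) ?_ (by omega)
    ((nv_val _ _ _ _ _ 1 1 0 1 (if_pos (by omega)) (if_pos (by omega)) (if_neg (by omega)) (if_pos (by omega))).trans (by norm_num))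
    ((nv_val _ _ _ _ _ 1 1 0 1 (if_pos (by omega)) (if_pos (by omega)) (if_neg (by omega)) (if_pos (by omega))).trans (by norm_num))
    ((ne_val _ _ _ _ _ 1 0 0 0 (if_pos (by omega)) (if_neg (by omega)) (if_neg (by omega)) (if_neg (by omega))).trans (by norm_num))
    (if_neg (by omega)) (by norm_num)
  unfold WY
  rw [if_pos (by omega)]
  omega

theorem lf_o3t0 (k l : ℕ) (h0 : l + 1 = 12 * k + 16) :
    X k l + X k (l + 1) + Y k l = 18 * k + 24 ∧ WY k (Y k l) = l ∧ Y k l < 12 * k + 16 ∧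
    NV (0) (6 * k + 8) (12 * k + 15) (2 * k + 3) (X k l) + NV (0) (6 * k + 8) (12 * k + 15) (2 * k + 3) (X k (l + 1)) +
      NE (0) (6 * k + 8) (12 * k + 15) (2 * k + 3) (Y k l) + (if l = 0 ∨ l + 1 = 12 * k + 16 then (1 : ℤ) else 0) = 7 := by
  have e1 := X_o3 k l (by omega) (by omega) (by omega)
  have e2 := (show X k (l + 1) = 6 * k + 8 by rw [h0]; exact X_last k)
  refine fin k l _ _ 3 2 1 1 e1 e2 (by omega) ?_ (by omega)
    ((nv_val _ _ _ _ _ 1 1 0 1 (if_pos (by omega)) (if_pos (by omega)) (if_neg (by omega)) (if_pos (by omega))).trans (by norm_num))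
    ((nv_val _ _ _ _ _ 1 0 0 1 (if_pos (by omega)) (if_neg (by omega)) (if_neg (by omega)) (if_pos (by omega))).trans (by norm_num))
    ((ne_val _ _ _ _ _ 1 0 0 0 (if_pos (by omega)) (if_neg (by omega)) (if_neg (by omega)) (if_neg (by omega))).trans (by norm_num))
    (if_pos (by omega)) (by norm_num)
  unfold WY
  rw [if_neg (by omega), if_neg (by omega), if_pos (by omega)]
  omega

theorem main (k : ℕ) : ∀ l < 12 * k + 16, X k l + X k (l + 1) + Y k l = 18 * k + 24 ∧ WY k (Y k l) = l ∧ Y k l < 12 * k + 16 ∧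
    NV (0) (6 * k + 8) (12 * k + 15) (2 * k + 3) (X k l) + NV (0) (6 * k + 8) (12 * k + 15) (2 * k + 3) (X k (l + 1)) +
      NE (0) (6 * k + 8) (12 * k + 15) (2 * k + 3) (Y k l) + (if l = 0 ∨ l + 1 = 12 * k + 16 then (1 : ℤ) else 0) = 7 := by
  intro l hl
  by_cases h0 : l = 0
  · skip
    exact lf_z0o0 k l h0
  rcases Nat.mod_two_eq_zero_or_one l with hp | hp
  · skip
    by_cases q0 : l ≤ 4 * k + 4
    · skip
      exact lf_e0o1 k l (by omega) (by omega) (by omega) (by omega) (by omega)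
    by_cases q1 : l ≤ 8 * k + 8
    · skip
      by_cases r0 : l + 1 ≤ 6 * k + 5
      · skip
        exact lf_e1o1 k l (by omega) (by omega) (by omega) (by omega) (by omega)
      by_cases r1 : l + 1 ≤ 8 * k + 7
      · skip
        exact lf_e1o2 k l (by omega) (by omega) (by omega) (by omega) (by omega)
      exact lf_e1o3 k l (by omega) (by omega) (by omega) (by omega) (by omega)
    by_cases q2 : l ≤ 8 * k + 10
    · skip
      exact lf_e2o3 k l (by omega) (by omega) (by omega) (by omega) (by omega)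
    by_cases q3 : l ≤ 10 * k + 12
    · skip
      exact lf_e3o3 k l (by omega) (by omega) (by omega) (by omega) (by omega)
    exact lf_e4o3 k l (by omega) (by omega) (by omega) (by omega) (by omega)
  · skip
    by_cases q0 : l ≤ 1
    · skip
      exact lf_o0e0 k l (by omega) (by omega) (by omega) (by omega) (by omega)
    by_cases q1 : l ≤ 6 * k + 5
    · skip
      by_cases r0 : l + 1 ≤ 4 * k + 4
      · skip
        exact lf_o1e0 k l (by omega) (by omega) (by omega) (by omega) (by omega)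
      exact lf_o1e1 k l (by omega) (by omega) (by omega) (by omega) (by omega)
    by_cases q2 : l ≤ 8 * k + 7
    · skip
      exact lf_o2e1 k l (by omega) (by omega) (by omega) (by omega) (by omega)
    by_cases r0 : l + 1 ≤ 8 * k + 10
    · skip
      exact lf_o3e2 k l (by omega) (by omega) (by omega) (by omega) (by omega)
    by_cases r1 : l + 1 ≤ 10 * k + 12
    · skip
      exact lf_o3e3 k l (by omega) (by omega) (by omega) (by omega) (by omega)
    by_cases r2 : l + 1 ≤ 12 * k + 14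
    · skip
      exact lf_o3e4 k l (by omega) (by omega) (by omega) (by omega) (by omega)
    exact lf_o3t0 k l (by omega)

theorem famA_emt (h k : ℕ) (hh : 1 ≤ h) :
    EdgeMagicTotal (pathGraph (2 * h) □ pathGraph (12 * k + 16)) := by
  have hA : X k 0 = 0 := X_zero k
  have hB : X k (12 * k + 16) = 6 * k + 8 := X_last k
  have hX1 : X k 1 = 6 * k + 9 := by
    rw [X_o0 k 1 (by omega) (by omega) (by omega)]
    omega
  have hXn : X k (12 * k + 16 - 1 + 1) = 6 * k + 8 := by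
    rw [show 12 * k + 16 - 1 + 1 = 12 * k + 16 by omega]; exact hB
  have hC : Y k 0 = 12 * k + 15 := by
    have := (main k 0 (by omega)).1
    rw [Nat.zero_add, hA, hX1] at this
    omega
  have hXm : X k (12 * k + 16 - 1) = 12 * k + 16 ∨ True := Or.inr trivial
  have hD : Y k (12 * k + 16 - 1) = 2 * k + 3 := by
    have h1 := (main k (12 * k + 16 - 1) (by omega)).1
    have h2 := X_o3 k (12 * k + 16 - 1) (by omega) (by omega) (by omega)
    rw [hXn] at h1
    omega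
  refine win_emt h (12 * k + 16) hh (by omega) (X k) (Y k) (18 * k + 24) 7 (0) (6 * k + 8) (12 * k + 15) (2 * k + 3)
    hA hB hC hD (fun l hl => (WX_X k l hl).2) (fun l hl => (main k l hl).2.2.1)
    (fun l hl => (main k l hl).1) ?_ ?_ ?_ ?_ ?_
  · intro x hx y hy hxy
    rw [← (WX_X k x hx).1, hxy, (WX_X k y hy).1]
  · intro x hx y hy hxy
    rw [← (main k x hx).2.1, hxy, (main k y hy).2.1]
  · have := (main k 0 (by omega)).2.2.2
    rw [Nat.zero_add, hA, hC, if_pos (Or.inl rfl)] at this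
    exact this
  · have := (main k (12 * k + 16 - 1) (by omega)).2.2.2
    rw [hXn, hD, if_pos (Or.inr (by omega))] at this
    exact this
  · intro l h1 h2
    have := (main k l (by omega)).2.2.2
    rw [if_neg (by omega), add_zero] at this
    exact this

end Run7.h922.Z.FamA
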