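import Pool.Agent.Run7.h922.Z.Zig3

/-!
Grids with `6 k + 1` rows, `k ≥ 1`.
-/

open SimpleGraph Run7.h138

namespace Run7.h922.Z

def gB (k s : ℕ) : ℕ := if s ≤ 2 * k then s / 2 else (s - 1) / 2

def cB (m k s : ℕ) : ℤ :=
  if s ≤ 2 * k then (if s % 2 = 0 then 0 else m)
  else if s = 2 * k + 1 then ((m / 2 : ℕ) : ℤ)
  else if s ≤ 8 * k + 2 then (if s % 2 = 1 then 0 else m)
  else if s ≤ 12 * k + 2 then (if s % 2 = 1 then -(((m + 1) / 2 : ℕ) : ℤ) else m - ((m + 1) / 2 : ℕ))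
  else -m

/-- the slot of level `l` -/
def sVB (k l : ℕ) : ℕ :=
  if l % 2 = 0 then (if l + 2 ≤ 2 * k then 2 * k + 1 + l else if l + 2 ≤ 6 * k then 6 * k + 3 + l
    else 8 * k + 1)
  else (if l ≤ 4 * k then 4 * k + l else l - 4 * k - 1)

/-- the slot of the edges between the levels `l` and `l + 1` -/
def sEB (k l : ℕ) : ℕ :=
  if l + 2 ≤ 2 * k then 12 * k + 2 - 2 * l
  else if l + 1 ≤ 3 * k then 8 * k - 2 * l
  else if l + 1 ≤ 4 * k then 8 * k - 2 * l - 1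
  else if l + 2 ≤ 6 * k then 16 * k - 2 * l
  else if l + 1 = 6 * k then 8 * k + 4
  else 8 * k + 2

theorem gB_spec (k s : ℕ) : (s ≤ 2 * k ∧ gB k s = s / 2) ∨
    (2 * k + 1 ≤ s ∧ gB k s = (s - 1) / 2) := by
  unfold gB
  split_ifs <;> omega

theorem cB_spec (m k s : ℕ) : (s ≤ 2 * k ∧ s % 2 = 0 ∧ cB m k s = 0) ∨
    (s ≤ 2 * k ∧ s % 2 = 1 ∧ cB m k s = m) ∨
    (s = 2 * k + 1 ∧ cB m k s = ((m / 2 : ℕ) : ℤ)) ∨
    (2 * k + 2 ≤ s ∧ s ≤ 8 * k + 2 ∧ s % 2 = 1 ∧ cB m k s = 0) ∨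
    (2 * k + 2 ≤ s ∧ s ≤ 8 * k + 2 ∧ s % 2 = 0 ∧ cB m k s = m) ∨
    (8 * k + 3 ≤ s ∧ 2 * k + 2 ≤ s ∧ s ≤ 12 * k + 2 ∧ s % 2 = 1 ∧
      cB m k s = -(((m + 1) / 2 : ℕ) : ℤ)) ∨
    (8 * k + 3 ≤ s ∧ 2 * k + 2 ≤ s ∧ s ≤ 12 * k + 2 ∧ s % 2 = 0 ∧
      cB m k s = m - ((m + 1) / 2 : ℕ)) ∨
    (12 * k + 3 ≤ s ∧ 2 * k + 2 ≤ s ∧ cB m k s = -m) := by
  unfold cB
  split_ifs <;> omega

theorem sVB_spec (k l : ℕ) :
    (l % 2 = 0 ∧ l + 2 ≤ 2 * k ∧ sVB k l = 2 * k + 1 + l) ∨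
    (l % 2 = 0 ∧ 2 * k < l + 2 ∧ l + 2 ≤ 6 * k ∧ sVB k l = 6 * k + 3 + l) ∨
    (l % 2 = 0 ∧ 2 * k < l + 2 ∧ 6 * k < l + 2 ∧ sVB k l = 8 * k + 1) ∨
    (l % 2 = 1 ∧ l ≤ 4 * k ∧ sVB k l = 4 * k + l) ∨
    (l % 2 = 1 ∧ 4 * k + 1 ≤ l ∧ sVB k l = l - 4 * k - 1) := by
  unfold sVB
  split_ifs <;> omega

theorem sEB_spec (k l : ℕ) :
    (l + 2 ≤ 2 * k ∧ sEB k l = 12 * k + 2 - 2 * l) ∨
    (2 * k < l + 2 ∧ l + 1 ≤ 3 * k ∧ sEB k l = 8 * k - 2 * l) ∨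
    (2 * k < l + 2 ∧ 3 * k < l + 1 ∧ l + 1 ≤ 4 * k ∧ sEB k l = 8 * k - 2 * l - 1) ∨
    (2 * k < l + 2 ∧ 4 * k < l + 1 ∧ l + 2 ≤ 6 * k ∧ sEB k l = 16 * k - 2 * l) ∨
    (2 * k < l + 2 ∧ 4 * k < l + 1 ∧ 6 * k < l + 2 ∧ l + 1 = 6 * k ∧ sEB k l = 8 * k + 4) ∨
    (2 * k < l + 2 ∧ 3 * k < l + 1 ∧ 4 * k < l + 1 ∧ 6 * k < l + 2 ∧ l + 1 ≠ 6 * k ∧
      sEB k l = 8 * k + 2) := by
  unfold sEB
  split_ifs <;> omega

/-- the correction of a level -/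
theorem cB_sVB (m k l : ℕ) (hk : 1 ≤ k) (hl : l ≤ 6 * k + 1) :
    (l = 0 ∧ cB m k (sVB k l) = ((m / 2 : ℕ) : ℤ)) ∨
    (l % 2 = 0 ∧ 2 * k ≤ l ∧ l + 2 ≤ 6 * k ∧ cB m k (sVB k l) = -(((m + 1) / 2 : ℕ) : ℤ)) ∨
    (l ≠ 0 ∧ (l % 2 = 1 ∨ l < 2 * k ∨ l = 6 * k) ∧ cB m k (sVB k l) = 0) := by
  have h1 := cB_spec m k (sVB k l)
  rcases sVB_spec k l with h | h | h | h | h
  · rw [h.2.2] at h1 ⊢
    omega
  · rw [h.2.2.2] at h1 ⊢
    omega
  · rw [h.2.2.2] at h1 ⊢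
    omega
  · rw [h.2.2] at h1 ⊢
    omega
  · rw [h.2.2] at h1 ⊢
    omega

/-- the correction of a set of edges -/
theorem cB_sEB (m k l : ℕ) (hk : 1 ≤ k) (hl : l ≤ 6 * k) :
    ((l + 2 ≤ 2 * k ∨ l + 1 = 6 * k) ∧ cB m k (sEB k l) = m - ((m + 1) / 2 : ℕ)) ∨
    (2 * k < l + 2 ∧ l + 1 ≠ 6 * k ∧ cB m k (sEB k l) = m) := by
  have h1 := cB_spec m k (sEB k l)
  rcases sEB_spec k l with h | h | h | h | h | h
  · rw [h.2] at h1 ⊢
    omega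
  · rw [h.2.2] at h1 ⊢
    omega
  · rw [h.2.2.2] at h1 ⊢
    omega
  · rw [h.2.2.2] at h1 ⊢
    omega
  · rw [h.2.2.2.2] at h1 ⊢
    omega
  · rw [h.2.2.2.2.2] at h1 ⊢
    omega

theorem one_emt (m k : ℕ) (hm : 1 ≤ m) (hk : 1 ≤ k) :
    EdgeMagicTotal (pathGraph m □ pathGraph (6 * k + 1)) := by
  refine zig_emt3 m (6 * k + 1) hm (by omega) (gB k) (cB m k) (sVB k) (sEB k) (9 * k)
    (3 * m + 1 - ((m + 1) / 2 : ℕ)) ?_ ?_ ?_ ?_ ?_ ?_ ?_ ?_ ?_ ?_ ?_ ?_ ?_ ?_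
  · intro s hs
    have h1 := cB_spec m k s
    have h2 := cB_spec m k (s + 1)
    have g1 := gB_spec k s
    have g2 := gB_spec k (s + 1)
    have hs2 : s % 2 = 0 ∨ s % 2 = 1 := by omega
    rcases lt_trichotomy s (2 * k) with h | h | h
    · rcases hs2 with h3 | h3
      · left
        constructor <;> omega
      · right
        constructor <;> omega
    · left
      constructor <;> omega
    · rcases hs2 with h3 | h3
      · right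
        constructor <;> omega
      · left
        constructor <;> omega
  · simp [gB]
  · simp [cB]
  · have g1 := gB_spec k (2 * (6 * k + 1) + 1)
    omega
  · have g1 := cB_spec m k (2 * (6 * k + 1) + 1)
    omega
  · intro l hl
    have := sVB_spec k l
    omega
  · intro l hl
    have := sEB_spec k l
    omega
  · intro l hl
    have h0 := cB_sVB m k l hk hl
    have h2 := cB_spec m k (sVB k l + 1)
    have g1 := gB_spec k (sVB k l)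
    have g2 := gB_spec k (sVB k l + 1)
    have hz : (l = 0 ∧ szV m (6 * k + 1) l = (m + 1) / 2) ∨
        (l = 6 * k + 1 ∧ szV m (6 * k + 1) l = m / 2) ∨
        (l ≠ 0 ∧ l ≠ 6 * k + 1 ∧ szV m (6 * k + 1) l = m) := by
      unfold szV
      split_ifs <;> omega
    left
    rcases sVB_spec k l with h | h | h | h | h
    · rw [h.2.2] at h0 h2 g1 g2 ⊢
      constructor <;> omega
    · rw [h.2.2.2] at h0 h2 g1 g2 ⊢
      constructor <;> omega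
    · rw [h.2.2.2] at h0 h2 g1 g2 ⊢
      constructor <;> omega
    · rw [h.2.2] at h0 h2 g1 g2 ⊢
      constructor <;> omega
    · rw [h.2.2] at h0 h2 g1 g2 ⊢
      constructor <;> omega
  · intro l hl
    have h0 := cB_sEB m k l hk (by omega)
    have h2 := cB_spec m k (sEB k l + 1)
    have g1 := gB_spec k (sEB k l)
    have g2 := gB_spec k (sEB k l + 1)
    have hz : (l = 0 ∧ szE m (6 * k + 1) l = m - 1 + (m + 1) / 2) ∨
        (l = 6 * k ∧ szE m (6 * k + 1) l = m - 1 + m / 2) ∨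
        (l ≠ 0 ∧ l ≠ 6 * k ∧ szE m (6 * k + 1) l = 2 * m - 1) := by
      unfold szE
      split_ifs <;> omega
    right
    rcases sEB_spec k l with h | h | h | h | h | h
    · rw [h.2] at h0 h2 g1 g2 ⊢
      constructor <;> omega
    · rw [h.2.2] at h0 h2 g1 g2 ⊢
      constructor <;> omega
    · rw [h.2.2.2] at h0 h2 g1 g2 ⊢
      constructor <;> omega
    · rw [h.2.2.2] at h0 h2 g1 g2 ⊢
      constructor <;> omega
    · rw [h.2.2.2.2] at h0 h2 g1 g2 ⊢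
      constructor <;> omega
    · rw [h.2.2.2.2.2] at h0 h2 g1 g2 ⊢
      constructor <;> omega
  · intro l hl
    have a1 := gB_spec k (sVB k l)
    have a2 := gB_spec k (sVB k (l + 1))
    have a3 := gB_spec k (sEB k l)
    have b1 := sVB_spec k l
    have b2 := sVB_spec k (l + 1)
    rcases sEB_spec k l with h | h | h | h | h | h
    · omega
    · omega
    · omega
    · omega
    · omega
    · omega
  · intro l hl
    have a1 := cB_sVB m k l hk (by omega)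
    have a2 := cB_sVB m k (l + 1) hk (by omega)
    have a3 := cB_sEB m k l hk (by omega)
    have hz : (l = 0 ∧ szE m (6 * k + 1) l = m - 1 + (m + 1) / 2) ∨
        (l = 6 * k ∧ szE m (6 * k + 1) l = m - 1 + m / 2) ∨
        (l ≠ 0 ∧ l ≠ 6 * k ∧ szE m (6 * k + 1) l = 2 * m - 1) := by
      unfold szE
      split_ifs <;> omega
    omega
  · intro a ha b hb h
    have h1 := sVB_spec k a
    have h2 := sVB_spec k b
    omega
  · intro a ha b hb h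
    have h1 := sEB_spec k a
    have h2 := sEB_spec k b
    omega
  · intro a ha b hb
    have h1 := sVB_spec k a
    have h2 := sEB_spec k b
    omega

end Run7.h922.Z
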