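import Pool.Agent.Run7.h922.Z.Zig3

/-!
Grids with `6 k + 3` rows: the levels are arranged in three runs, according to the residue of the
level modulo 3.
-/

open SimpleGraph Run7.h138

namespace Run7.h922.Z

def cE (m k w : ℕ) : ℤ :=
  if w ≤ 2 * k then 0 else if w = 2 * k + 1 then -((m / 2 : ℕ) : ℤ)
  else if w ≤ 4 * k + 2 then -(2 * (m / 2 : ℕ) : ℤ) else -(2 * m : ℤ)

def cO (m k w : ℕ) : ℤ :=
  if w ≤ 2 * k then m else if w ≤ 4 * k + 1 then m - 2 * (m / 2 : ℕ)
  else if w = 4 * k + 2 then -((m / 2 : ℕ) : ℤ) else -m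

theorem cE_spec (m k w : ℕ) : (w ≤ 2 * k ∧ cE m k w = 0) ∨
    (w = 2 * k + 1 ∧ cE m k w = -((m / 2 : ℕ) : ℤ)) ∨
    (2 * k + 2 ≤ w ∧ w ≤ 4 * k + 2 ∧ cE m k w = -(2 * (m / 2 : ℕ) : ℤ)) ∨
    (4 * k + 3 ≤ w ∧ cE m k w = -(2 * m : ℤ)) := by
  unfold cE
  split_ifs <;> omega

theorem cO_spec (m k w : ℕ) : (w ≤ 2 * k ∧ cO m k w = m) ∨
    (2 * k + 1 ≤ w ∧ w ≤ 4 * k + 1 ∧ cO m k w = m - 2 * (m / 2 : ℕ)) ∨
    (w = 4 * k + 2 ∧ cO m k w = -((m / 2 : ℕ) : ℤ)) ∨
    (4 * k + 3 ≤ w ∧ cO m k w = -m) := by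
  unfold cO
  split_ifs <;> omega

def cA (m k s : ℕ) : ℤ := if s % 2 = 0 then cE m k (s / 2) else cO m k (s / 2)

theorem cA_even (m k w : ℕ) : cA m k (2 * w) = cE m k w := by
  unfold cA
  rw [if_pos (by omega), show 2 * w / 2 = w by omega]

theorem cA_odd (m k w : ℕ) : cA m k (2 * w + 1) = cO m k w := by
  unfold cA
  rw [if_neg (by omega), show (2 * w + 1) / 2 = w by omega]

/-- the position of level `l` -/
def wA (k l : ℕ) : ℕ :=
  (if l % 6 = 2 then 0 else if l % 6 = 5 then k + 1 else if l % 6 = 0 then 2 * k + 1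
   else if l % 6 = 3 then 3 * k + 2 else if l % 6 = 4 then 4 * k + 3 else 5 * k + 3) + l / 6

/-- the position of the edges between the levels `l` and `l + 1` -/
def uA (k l : ℕ) : ℕ :=
  if l % 3 = 0 then 2 * k - l / 3 else if l % 3 = 1 then 4 * k + 1 - l / 3
  else 6 * k + 2 - l / 3

theorem wA_spec (k l : ℕ) :
    (l % 6 = 2 ∧ wA k l = l / 6) ∨ (l % 6 = 5 ∧ wA k l = k + 1 + l / 6) ∨
    (l % 6 = 0 ∧ wA k l = 2 * k + 1 + l / 6) ∨ (l % 6 = 3 ∧ wA k l = 3 * k + 2 + l / 6) ∨
    (l % 6 = 4 ∧ wA k l = 4 * k + 3 + l / 6) ∨ (l % 6 = 1 ∧ wA k l = 5 * k + 3 + l / 6) := by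
  unfold wA
  split_ifs <;> omega

theorem uA_spec (k l : ℕ) :
    (l % 3 = 0 ∧ uA k l = 2 * k - l / 3) ∨ (l % 3 = 1 ∧ uA k l = 4 * k + 1 - l / 3) ∨
    (l % 3 = 2 ∧ uA k l = 6 * k + 2 - l / 3) := by
  unfold uA
  split_ifs <;> omega

theorem three_emt (m k : ℕ) (hm : 1 ≤ m) :
    EdgeMagicTotal (pathGraph m □ pathGraph (6 * k + 3)) := by
  refine zig_emt3 m (6 * k + 3) hm (by omega) (fun s => s / 2) (cA m k)
    (fun l => 2 * wA k l) (fun l => 2 * uA k l + 1) (9 * k + 4) (1 + m - 2 * (m / 2 : ℕ))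
    ?_ (by simp) ?_ ?_ ?_ ?_ ?_ ?_ ?_ ?_ ?_ ?_ ?_ ?_
  · intro s hs
    obtain ⟨w, rfl | rfl⟩ : ∃ w, s = 2 * w ∨ s = 2 * w + 1 := ⟨s / 2, by omega⟩
    · left
      rw [cA_even, cA_odd]
      have h1 := cE_spec m k w
      have h2 := cO_spec m k w
      refine ⟨by omega, by omega⟩
    · right
      rw [cA_odd, show 2 * w + 1 + 1 = 2 * (w + 1) by ring, cA_even]
      have h1 := cE_spec m k (w + 1)
      have h2 := cO_spec m k w
      refine ⟨by omega, by omega⟩
  · have h := cA_even m k 0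
    rw [Nat.mul_zero] at h
    rw [h]
    have h1 := cE_spec m k 0
    omega
  · omega
  · rw [cA_odd]
    have h2 := cO_spec m k (6 * k + 3)
    omega
  · intro l hl
    have := wA_spec k l
    omega
  · intro l hl
    have := uA_spec k l
    omega
  · intro l hl
    left
    refine ⟨by omega, ?_⟩
    rw [cA_even, cA_odd]
    have h0 := wA_spec k l
    have h1 := cE_spec m k (wA k l)
    have h2 := cO_spec m k (wA k l)
    unfold szV
    split_ifs <;> omega
  · intro l hl
    right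
    refine ⟨by omega, ?_⟩
    rw [show 2 * uA k l + 1 + 1 = 2 * (uA k l + 1) by ring, cA_even, cA_odd]
    have h0 := uA_spec k l
    have h1 := cE_spec m k (uA k l + 1)
    have h2 := cO_spec m k (uA k l)
    unfold szE
    split_ifs <;> omega
  · intro l hl
    have h0 := uA_spec k l
    have h1 := wA_spec k l
    have h2 := wA_spec k (l + 1)
    omega
  · intro l hl
    rw [cA_even, cA_even, cA_odd]
    have h0 := uA_spec k l
    have h1 := wA_spec k l
    have h2 := wA_spec k (l + 1)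
    have h3 := cE_spec m k (wA k l)
    have h4 := cE_spec m k (wA k (l + 1))
    have h5 := cO_spec m k (uA k l)
    have hr : l % 6 = 0 ∨ l % 6 = 1 ∨ l % 6 = 2 ∨ l % 6 = 3 ∨ l % 6 = 4 ∨ l % 6 = 5 := by omega
    rcases hr with hr | hr | hr | hr | hr | hr
    · have e0 : uA k l = 2 * k - l / 3 := by omega
      have e1 : wA k l = 2 * k + 1 + l / 6 := by omega
      have e2 : wA k (l + 1) = 5 * k + 3 + l / 6 := by omega
      unfold szE
      split_ifs <;> omega
    · have e0 : uA k l = 4 * k + 1 - l / 3 := by omega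
      have e1 : wA k l = 5 * k + 3 + l / 6 := by omega
      have e2 : wA k (l + 1) = l / 6 := by omega
      unfold szE
      split_ifs <;> omega
    · have e0 : uA k l = 6 * k + 2 - l / 3 := by omega
      have e1 : wA k l = l / 6 := by omega
      have e2 : wA k (l + 1) = 3 * k + 2 + l / 6 := by omega
      unfold szE
      split_ifs <;> omega
    · have e0 : uA k l = 2 * k - l / 3 := by omega
      have e1 : wA k l = 3 * k + 2 + l / 6 := by omega
      have e2 : wA k (l + 1) = 4 * k + 3 + l / 6 := by omega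
      unfold szE
      split_ifs <;> omega
    · have e0 : uA k l = 4 * k + 1 - l / 3 := by omega
      have e1 : wA k l = 4 * k + 3 + l / 6 := by omega
      have e2 : wA k (l + 1) = k + 1 + l / 6 := by omega
      unfold szE
      split_ifs <;> omega
    · have e0 : uA k l = 6 * k + 2 - l / 3 := by omega
      have e1 : wA k l = k + 1 + l / 6 := by omega
      have e2 : wA k (l + 1) = 2 * k + 2 + l / 6 := by omega
      unfold szE
      split_ifs <;> omega
  · intro a ha b hb h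
    have h1 := wA_spec k a
    have h2 := wA_spec k b
    omega
  · intro a ha b hb h
    have h1 := uA_spec k a
    have h2 := uA_spec k b
    omega
  · intro a ha b hb
    omega

end Run7.h922.Z
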