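import Pool.Agent.Run7.h922.Z.Zig3

/-!
Two rows: the blocks are arranged in the order `V₁, V₀, E₁, V₂, E₀`.
-/

open SimpleGraph Run7.h138

namespace Run7.h922.Z

def gT (s : ℕ) : ℕ := if s ≤ 2 then 0 else if s ≤ 4 then 1 else 2

def cT (m s : ℕ) : ℤ :=
  if s = 0 then 0 else if s = 1 then m else if s = 2 then m + ((m + 1) / 2 : ℕ)
  else if s = 3 then 0 else if s = 4 then ((m / 2 : ℕ) : ℤ) else -m

def vT (l : ℕ) : ℕ := if l = 0 then 1 else if l = 1 then 0 else 3

def eT (l : ℕ) : ℕ := if l = 0 then 4 else 2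

theorem two_emt (m : ℕ) (hm : 1 ≤ m) : EdgeMagicTotal (pathGraph m □ pathGraph 2) := by
  refine zig_emt3 m 2 hm (by omega) gT (cT m) vT eT 1 (3 * m + 1) ?_ ?_ ?_ ?_ ?_ ?_ ?_ ?_ ?_ ?_ ?_
    ?_ ?_ ?_
  · intro s hs
    interval_cases s <;> simp [gT, cT] <;> omega
  · simp [gT]
  · simp [cT]
  · simp [gT]
  · simp [cT]
  · intro l hl
    interval_cases l <;> simp [vT]
  · intro l hl
    interval_cases l <;> simp [eT]
  · intro l hl
    interval_cases l <;> simp [vT, gT, cT, szV]
  · intro l hl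
    interval_cases l <;> simp [eT, gT, cT, szE] <;> omega
  · intro l hl
    interval_cases l <;> simp [vT, eT, gT]
  · intro l hl
    interval_cases l <;> simp [vT, eT, cT, szE] <;> omega
  · intro a ha b hb
    interval_cases a <;> interval_cases b <;> simp [vT]
  · intro a ha b hb
    interval_cases a <;> interval_cases b <;> simp [eT]
  · intro a ha b hb
    interval_cases a <;> interval_cases b <;> simp [vT, eT]

end Run7.h922.Z
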