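import Pool.Agent.Run7.h922.Z.Zig3

/-!
The block criterion for an even number `2 h` of columns: all positions are of the form
`1 + g (6 h - 1) + c h`, so a finite table settles all `h` at once.
-/

open SimpleGraph Run7.h138

namespace Run7.h922.Z

/-- size of a level in units of `h` -/
def vz (n l : ℕ) : ℤ := if l = 0 ∨ l = n then 1 else 2

/-- size (plus one) of a set of edges in units of `h` -/
def ez (n l : ℕ) : ℤ := if l = 0 ∨ l + 1 = n then 3 else 4

theorem zig_even (h n : ℕ) (hh : 1 ≤ h) (hn : 2 ≤ n) (g : ℕ → ℕ) (c : ℕ → ℤ) (sV sE : ℕ → ℕ)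
    (κ : ℕ) (K0 : ℤ)
    (hstep : ∀ s < 2 * n + 1, (g (s + 1) = g s ∧ c s ≤ c (s + 1)) ∨
      (g (s + 1) = g s + 1 ∧ c s + 1 ≤ c (s + 1) + 6))
    (hg0 : g 0 = 0) (hc0 : c 0 = 0) (hgN : g (2 * n + 1) = n) (hcN : c (2 * n + 1) = -2)
    (hsV : ∀ l < n + 1, sV l < 2 * n + 1) (hsE : ∀ l < n, sE l < 2 * n + 1)
    (hV : ∀ l < n + 1, g (sV l + 1) = g (sV l) ∧ c (sV l) + vz n l ≤ c (sV l + 1))
    (hE2 : ∀ l < n, g (sE l + 1) = g (sE l) + 1 ∧ c (sE l) + ez n l ≤ c (sE l + 1) + 6)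
    (hκ : ∀ l < n, g (sV l) + g (sV (l + 1)) + g (sE l) = κ)
    (hE : ∀ l < n, c (sV l) + c (sV (l + 1)) + c (sE l) + ez n l = K0)
    (iV : ∀ a < n + 1, ∀ b < n + 1, sV a = sV b → a = b)
    (iE : ∀ a < n, ∀ b < n, sE a = sE b → a = b)
    (iVE : ∀ a < n + 1, ∀ b < n, sV a ≠ sE b) :
    EdgeMagicTotal (pathGraph (2 * h) □ pathGraph n) := by
  have hh' : (1 : ℤ) ≤ h := by exact_mod_cast hh
  have hsz : ∀ l, (szE (2 * h) n l : ℤ) = ez n l * h - 1 := by
    intro l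
    unfold szE ez
    by_cases h1 : l = 0
    · rw [if_pos h1, if_pos (Or.inl h1)]
      omega
    · by_cases h2 : l + 1 = n
      · rw [if_neg h1, if_pos h2, if_pos (Or.inr h2)]
        omega
      · rw [if_neg h1, if_neg h2, if_neg (by tauto)]
        omega
  have hvz : ∀ l, (szV (2 * h) n l : ℤ) = vz n l * h := by
    intro l
    unfold szV vz
    by_cases h1 : l = 0
    · rw [if_pos h1, if_pos (Or.inl h1)]
      omega
    · by_cases h2 : l = n
      · rw [if_neg h1, if_pos h2, if_pos (Or.inr h2)]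
        omega
      · rw [if_neg h1, if_neg h2, if_neg (by tauto)]
        omega
  refine zig_emt3 (2 * h) n (by omega) hn g (fun s => c s * h) sV sE κ (K0 * h + 1)
    ?_ hg0 ?_ hgN ?_ ?_ hsE ?_ ?_ hκ ?_ ?_ iE ?_
  · intro s hs
    rcases hstep s hs with ⟨h1, h2⟩ | ⟨h1, h2⟩
    · exact Or.inl ⟨h1, by nlinarith⟩
    · refine Or.inr ⟨h1, ?_⟩
      push_cast
      nlinarith
  · simp [hc0]
  · simp [hcN]
  · intro l hl
    exact hsV l (by omega)
  · intro l hl
    obtain ⟨h1, h2⟩ := hV l (by omega)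
    refine Or.inl ⟨h1, ?_⟩
    rw [hvz]
    nlinarith
  · intro l hl
    obtain ⟨h1, h2⟩ := hE2 l hl
    refine Or.inr ⟨h1, ?_⟩
    rw [hsz]
    push_cast
    nlinarith
  · intro l hl
    have := hE l hl
    rw [hsz]
    rw [← this]
    ring
  · intro a ha b hb
    exact iV a (by omega) b (by omega)
  · intro a ha b hb
    exact iVE a (by omega) b hb

end Run7.h922.Z
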