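import Pool.Agent.Run7.h922.Z.Even

/-!
A criterion for an even number of columns in terms of windows: level `l` gets the window `X l`, the
edges between the levels `l` and `l + 1` get the window `Y l`.
-/

open SimpleGraph Run7.h138

namespace Run7.h922.Z

/-- number of short blocks before the level block of window `w` -/
def NV (a b c d w : ℕ) : ℤ :=
  (if a < w then 1 else 0) + (if b < w then 1 else 0) + (if c < w then 1 else 0) +
    (if d < w then 1 else 0)

/-- number of short blocks before the edge block of window `w` -/
def NE (a b c d w : ℕ) : ℤ :=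
  (if a ≤ w then 1 else 0) + (if b ≤ w then 1 else 0) + (if c < w then 1 else 0) +
    (if d < w then 1 else 0)

def cW (a b c d s : ℕ) : ℤ :=
  if s % 2 = 0 then - NV a b c d (s / 2) else 2 - NE a b c d (s / 2)

theorem cW_even (a b c d w : ℕ) : cW a b c d (2 * w) = - NV a b c d w := by
  unfold cW
  rw [if_pos (by omega), show 2 * w / 2 = w by omega]

theorem cW_odd (a b c d w : ℕ) : cW a b c d (2 * w + 1) = 2 - NE a b c d w := by
  unfold cW
  rw [if_neg (by omega), show (2 * w + 1) / 2 = w by omega]

theorem win_emt (h n : ℕ) (hh : 1 ≤ h) (hn : 2 ≤ n) (X Y : ℕ → ℕ) (κ : ℕ) (M : ℤ) (a b c d : ℕ)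
    (ha : X 0 = a) (hb : X n = b) (hc : Y 0 = c) (hd : Y (n - 1) = d)
    (hX : ∀ l ≤ n, X l ≤ n) (hY : ∀ l < n, Y l < n)
    (hsum : ∀ l < n, X l + X (l + 1) + Y l = κ)
    (iX : ∀ x ≤ n, ∀ y ≤ n, X x = X y → x = y)
    (iY : ∀ x < n, ∀ y < n, Y x = Y y → x = y)
    (hN0 : NV a b c d a + NV a b c d (X 1) + NE a b c d c + 1 = M)
    (hN1 : NV a b c d (X (n - 1)) + NV a b c d b + NE a b c d d + 1 = M)
    (hN : ∀ l, 1 ≤ l → l + 1 < n →
      NV a b c d (X l) + NV a b c d (X (l + 1)) + NE a b c d (Y l) = M) :
    EdgeMagicTotal (pathGraph (2 * h) □ pathGraph n) := by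
  have hab : a ≠ b := by
    intro h'
    have := iX 0 (by omega) n (le_refl _) (by rw [ha, hb, h'])
    omega
  have hcd : c ≠ d := by
    intro h'
    have := iY 0 (by omega) (n - 1) (by omega) (by rw [hc, hd, h'])
    omega
  have han : a ≤ n := by rw [← ha]; exact hX 0 (by omega)
  have hbn : b ≤ n := by rw [← hb]; exact hX n (by omega)
  have hcn : c < n := by rw [← hc]; exact hY 0 (by omega)
  have hdn : d < n := by rw [← hd]; exact hY (n - 1) (by omega)
  refine zig_even h n hh hn (fun s => s / 2) (cW a b c d) (fun l => 2 * X l)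
    (fun l => 2 * Y l + 1) κ (6 - M) ?_ ?_ ?_ ?_ ?_ ?_ ?_ ?_ ?_ ?_ ?_ ?_ ?_ ?_
  · intro s hs
    obtain ⟨w, rfl | rfl⟩ : ∃ w, s = 2 * w ∨ s = 2 * w + 1 := ⟨s / 2, by omega⟩
    · left
      refine ⟨by omega, ?_⟩
      rw [cW_even, cW_odd]
      unfold NV NE
      split_ifs <;> omega
    · right
      refine ⟨by omega, ?_⟩
      rw [show 2 * w + 1 + 1 = 2 * (w + 1) by ring, cW_even, cW_odd]
      unfold NV NE
      split_ifs <;> omega
  · simp
  · have := cW_even a b c d 0
    rw [Nat.mul_zero] at this
    rw [this]
    unfold NV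
    split_ifs <;> omega
  · omega
  · rw [cW_odd]
    unfold NE
    split_ifs <;> omega
  · intro l hl
    have := hX l (by omega)
    omega
  · intro l hl
    have := hY l hl
    omega
  · intro l hl
    refine ⟨by omega, ?_⟩
    rw [cW_even, cW_odd]
    unfold vz
    by_cases h0 : l = 0
    · subst h0
      rw [if_pos (Or.inl rfl), ha]
      unfold NV NE
      split_ifs <;> omega
    · by_cases h1 : l = n
      · subst h1
        rw [if_pos (Or.inr rfl), hb]
        unfold NV NE
        split_ifs <;> omega
      · rw [if_neg (by tauto)]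
        have e0 : X l ≠ a := by
          intro h'
          exact h0 (iX l (by omega) 0 (by omega) (by rw [h', ha]))
        have e1 : X l ≠ b := by
          intro h'
          exact h1 (iX l (by omega) n (by omega) (by rw [h', hb]))
        unfold NV NE
        split_ifs <;> omega
  · intro l hl
    refine ⟨by omega, ?_⟩
    rw [show 2 * Y l + 1 + 1 = 2 * (Y l + 1) by ring, cW_even, cW_odd]
    unfold ez
    by_cases h0 : l = 0
    · subst h0
      rw [if_pos (Or.inl rfl), hc]
      unfold NV NE
      split_ifs <;> omega
    · by_cases h1 : l + 1 = n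
      · have : l = n - 1 := by omega
        subst this
        rw [if_pos (Or.inr h1), hd]
        unfold NV NE
        split_ifs <;> omega
      · rw [if_neg (by tauto)]
        have e0 : Y l ≠ c := by
          intro h'
          exact h0 (iY l (by omega) 0 (by omega) (by rw [h', hc]))
        have e1 : Y l ≠ d := by
          intro h'
          have := iY l (by omega) (n - 1) (by omega) (by rw [h', hd])
          omega
        unfold NV NE
        split_ifs <;> omega
  · intro l hl
    have := hsum l hl
    omega
  · intro l hl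
    rw [cW_even, cW_even, cW_odd]
    unfold ez
    by_cases h0 : l = 0
    · subst h0
      rw [if_pos (Or.inl rfl), hc, ha]
      rw [Nat.zero_add]
      linarith
    · by_cases h1 : l + 1 = n
      · have : l = n - 1 := by omega
        subst this
        rw [if_pos (Or.inr h1), hd, h1, hb]
        linarith
      · rw [if_neg (by tauto)]
        have := hN l (by omega) (by omega)
        linarith
  · intro x hx y hy hxy
    exact iX x (by omega) y (by omega) (by omega)
  · intro x hx y hy hxy
    exact iY x hx y hy (by omega)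
  · intro x hx y hy
    omega

end Run7.h922.Z
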