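import Pool.Agent.Run7.h922.Z.Win
open SimpleGraph Run7.h138
namespace Run7.h922.Z

theorem nv_val (a b c d w : ℕ) (p q r s : ℤ) (h1 : (if a < w then (1 : ℤ) else 0) = p)
    (h2 : (if b < w then (1 : ℤ) else 0) = q) (h3 : (if c < w then (1 : ℤ) else 0) = r)
    (h4 : (if d < w then (1 : ℤ) else 0) = s) : NV a b c d w = p + q + r + s := by
  unfold NV
  rw [h1, h2, h3, h4]

theorem ne_val (a b c d w : ℕ) (p q r s : ℤ) (h1 : (if a ≤ w then (1 : ℤ) else 0) = p)
    (h2 : (if b ≤ w then (1 : ℤ) else 0) = q) (h3 : (if c < w then (1 : ℤ) else 0) = r)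
    (h4 : (if d < w then (1 : ℤ) else 0) = s) : NE a b c d w = p + q + r + s := by
  unfold NE
  rw [h1, h2, h3, h4]

end Run7.h922.Z
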