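import Pool.Agent.Run7.h138.EmtBase

/-!
Zigzag level sets: the cell in column `j`, row `i` of the grid lies in level `i + j % 2`. The levels
`0, …, n` form a weighted path: consecutive labels on every level (in the order of the columns) give
consecutive edge sums between two consecutive levels. So an edge-magic total labeling of the grid
follows from a suitable arrangement of `2n + 1` blocks.
-/

open SimpleGraph Run7.h138

namespace Run7.h922.Z

/-- offset of the label of the cell in column `j` inside the block of level `l` -/
def off (n l j : ℕ) : ℕ := if l = 0 ∨ l = n then j / 2 else j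

/-- number of cells of level `l` -/
def szV (m n l : ℕ) : ℕ := if l = 0 then (m + 1) / 2 else if l = n then m / 2 else m

/-- number of edges between the levels `l` and `l + 1` -/
def szE (m n l : ℕ) : ℕ :=
  if l = 0 then m - 1 + (m + 1) / 2 else if l + 1 = n then m - 1 + m / 2 else 2 * m - 1

theorem mono_of_step {P : ℕ → ℤ} {S : ℕ} (h : ∀ s < S, P s ≤ P (s + 1)) :
    ∀ a b : ℕ, a ≤ b → b ≤ S → P a ≤ P b := by
  intro a b hab
  induction b, hab using Nat.le_induction with
  | base => intro _; exact le_refl _
  | succ b hab ih =>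
    intro hb
    exact le_trans (ih (by omega)) (h b (by omega))

theorem zig_emt (m n : ℕ) (hm : 1 ≤ m) (hn : 2 ≤ n) (P : ℕ → ℤ) (K : ℤ) (sV sE : ℕ → ℕ)
    (hP : ∀ s < 2 * n + 1, P s ≤ P (s + 1)) (hP0 : P 0 = 1)
    (hPN : P (2 * n + 1) = (m * n + ((m - 1 : ℕ) * n + m * (n - 1 : ℕ)) : ℕ) + 1)
    (hsV : ∀ l ≤ n, sV l < 2 * n + 1) (hsE : ∀ l < n, sE l < 2 * n + 1)
    (hV : ∀ l ≤ n, P (sV l) + szV m n l ≤ P (sV l + 1))
    (hE : ∀ l < n, P (sV l) + P (sV (l + 1)) + P (sE l) + szE m n l = K + 1)
    (hE2 : ∀ l < n, P (sE l) + szE m n l ≤ P (sE l + 1))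
    (iV : ∀ a ≤ n, ∀ b ≤ n, sV a = sV b → a = b)
    (iE : ∀ a < n, ∀ b < n, sE a = sE b → a = b)
    (iVE : ∀ a ≤ n, ∀ b < n, sV a ≠ sE b) :
    EdgeMagicTotal (pathGraph m □ pathGraph n) := by
  have mono := mono_of_step hP
  set N := m * n + ((m - 1 : ℕ) * n + m * (n - 1 : ℕ)) with hN
  let vL : ℕ → ℕ → ℤ := fun j i => P (sV (i + j % 2)) + off n (i + j % 2) j
  let hL : ℕ → ℕ → ℤ := fun j i => K - vL j i - vL (j + 1) i
  let wL : ℕ → ℕ → ℤ := fun j i => K - vL j i - vL j (i + 1)
  -- block bounds
  have slotV : ∀ j i, j < m → i < n →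
      P (sV (i + j % 2)) ≤ vL j i ∧ vL j i < P (sV (i + j % 2) + 1) := by
    intro j i hj hi
    have h := hV (i + j % 2) (by omega)
    simp only [vL]
    constructor
    · omega
    · have : off n (i + j % 2) j < szV m n (i + j % 2) := by
        simp only [off, szV]
        split_ifs <;> omega
      omega
  have hLe : ∀ j i, j + 1 < m → i < n → hL j i = P (sE i) + szE m n i - 1
      - (off n (i + j % 2) j + off n (i + (j + 1) % 2) (j + 1) : ℕ) := by
    intro j i hj hi
    have h := hE i hi
    simp only [hL, vL]
    rcases Nat.mod_two_eq_zero_or_one j with h2 | h2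
    · have h3 : (j + 1) % 2 = 1 := by omega
      simp only [h2, h3, Nat.add_zero]
      push_cast
      linarith
    · have h3 : (j + 1) % 2 = 0 := by omega
      simp only [h2, h3, Nat.add_zero]
      push_cast
      linarith
  have wLe : ∀ j i, j < m → i + 1 < n → wL j i = P (sE (i + j % 2)) + szE m n (i + j % 2) - 1
      - (off n (i + j % 2) j + off n (i + 1 + j % 2) j : ℕ) := by
    intro j i hj hi
    have h := hE (i + j % 2) (by omega)
    simp only [wL, vL]
    rw [show i + 1 + j % 2 = i + j % 2 + 1 by omega]
    push_cast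
    linarith
  have slotH : ∀ j i, j + 1 < m → i < n →
      P (sE i) ≤ hL j i ∧ hL j i < P (sE i + 1) := by
    intro j i hj hi
    have h := hE2 i hi
    have h2 := hLe j i hj hi
    have : off n (i + j % 2) j + off n (i + (j + 1) % 2) (j + 1) + 1 ≤ szE m n i := by
      simp only [off, szE]
      split_ifs <;> omega
    omega
  have slotW : ∀ j i, j < m → i + 1 < n →
      P (sE (i + j % 2)) ≤ wL j i ∧ wL j i < P (sE (i + j % 2) + 1) := by
    intro j i hj hi
    have h := hE2 (i + j % 2) (by omega)
    have h2 := wLe j i hj hi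
    have : off n (i + j % 2) j + off n (i + 1 + j % 2) j + 1 ≤ szE m n (i + j % 2) := by
      simp only [off, szE]
      split_ifs <;> omega
    omega
  have range : ∀ s < 2 * n + 1, ∀ z : ℤ, P s ≤ z → z < P (s + 1) → 1 ≤ z ∧ z ≤ N := by
    intro s hs z h1 h2
    have h3 := mono 0 s (by omega) (by omega)
    have h4 := mono (s + 1) (2 * n + 1) (by omega) (by omega)
    omega
  have uniq : ∀ s < 2 * n + 1, ∀ t < 2 * n + 1, ∀ z : ℤ, P s ≤ z → z < P (s + 1) →
      P t ≤ z → z < P (t + 1) → s = t := by
    intro s hs t ht z h1 h2 h3 h4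
    by_contra hne
    rcases Nat.lt_or_gt_of_ne hne with h | h
    · have := mono (s + 1) t (by omega) (by omega)
      omega
    · have := mono (t + 1) s (by omega) (by omega)
      omega
  apply grid_emt m n (fun j i => (vL j i).toNat) (fun j i => (hL j i).toNat)
    (fun j i => (wL j i).toNat) K.toNat
  · -- injectivity
    rintro (⟨a, b⟩ | ⟨a, b⟩ | ⟨a, b⟩) (⟨c, d⟩ | ⟨c, d⟩ | ⟨c, d⟩) h <;>
      simp only [tableFun, Sum.elim_inl, Sum.elim_inr] at h
    · -- V V
      have ha := a.2; have hb := b.2; have hc := c.2; have hd := d.2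
      have s1 := slotV a b ha hb
      have s2 := slotV c d hc hd
      have r1 := range _ (hsV (b + a % 2) (by omega)) _ s1.1 s1.2
      have r2 := range _ (hsV (d + c % 2) (by omega)) _ s2.1 s2.2
      have heq : vL a b = vL c d := by omega
      rw [← heq] at s2
      have hs := uniq _ (hsV (b + a % 2) (by omega)) _ (hsV (d + c % 2) (by omega)) _
        s1.1 s1.2 s2.1 s2.2
      have hl := iV _ (by omega) _ (by omega) hs
      simp only [vL] at heq
      rw [hs] at heq
      have ho : off n (b + a % 2) a = off n (d + c % 2) c := by omega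
      rw [← hl] at ho
      have : (a : ℕ) = c ∧ (b : ℕ) = d := by
        simp only [off] at ho
        split_ifs at ho <;> omega
      rw [Fin.ext this.1, Fin.ext this.2]
    · -- V H
      exfalso
      have ha := a.2; have hb := b.2; have hc := c.2; have hd := d.2
      have s1 := slotV a b ha hb
      have s2 := slotH c d (by omega) hd
      have r1 := range _ (hsV (b + a % 2) (by omega)) _ s1.1 s1.2
      have r2 := range _ (hsE d hd) _ s2.1 s2.2
      have heq : vL a b = hL c d := by omega
      rw [← heq] at s2
      exact iVE _ (by omega) _ hd (uniq _ (hsV (b + a % 2) (by omega)) _ (hsE d hd) _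
        s1.1 s1.2 s2.1 s2.2)
    · -- V W
      exfalso
      have ha := a.2; have hb := b.2; have hc := c.2; have hd := d.2
      have s1 := slotV a b ha hb
      have s2 := slotW c d hc (by omega)
      have r1 := range _ (hsV (b + a % 2) (by omega)) _ s1.1 s1.2
      have r2 := range _ (hsE (d + c % 2) (by omega)) _ s2.1 s2.2
      have heq : vL a b = wL c d := by omega
      rw [← heq] at s2
      exact iVE _ (by omega) _ (by omega) (uniq _ (hsV (b + a % 2) (by omega)) _
        (hsE (d + c % 2) (by omega)) _ s1.1 s1.2 s2.1 s2.2)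
    · -- H V
      exfalso
      have ha := a.2; have hb := b.2; have hc := c.2; have hd := d.2
      have s1 := slotH a b (by omega) hb
      have s2 := slotV c d hc hd
      have r1 := range _ (hsE b hb) _ s1.1 s1.2
      have r2 := range _ (hsV (d + c % 2) (by omega)) _ s2.1 s2.2
      have heq : hL a b = vL c d := by omega
      rw [← heq] at s2
      exact iVE _ (by omega) _ hb (uniq _ (hsV (d + c % 2) (by omega)) _ (hsE b hb) _
        s2.1 s2.2 s1.1 s1.2)
    · -- H H
      have ha := a.2; have hb := b.2; have hc := c.2; have hd := d.2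
      have s1 := slotH a b (by omega) hb
      have s2 := slotH c d (by omega) hd
      have r1 := range _ (hsE b hb) _ s1.1 s1.2
      have r2 := range _ (hsE d hd) _ s2.1 s2.2
      have heq : hL a b = hL c d := by omega
      rw [← heq] at s2
      have hs := uniq _ (hsE b hb) _ (hsE d hd) _ s1.1 s1.2 s2.1 s2.2
      have hl := iE _ hb _ hd hs
      have e1 := hLe a b (by omega) hb
      have e2 := hLe c d (by omega) hd
      rw [← hl] at e2
      have heq' : hL a b = hL c b := by rw [hl] at heq ⊢; exact heq
      rw [← hl] at heq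
      have ho : off n (b + a % 2) a + off n (b + (a + 1) % 2) (a + 1)
          = off n (b + c % 2) c + off n (b + (c + 1) % 2) (c + 1) := by omega
      have : (a : ℕ) = c := by
        simp only [off] at ho
        split_ifs at ho <;> omega
      rw [Fin.ext this, Fin.ext hl]
    · -- H W
      exfalso
      have ha := a.2; have hb := b.2; have hc := c.2; have hd := d.2
      have s1 := slotH a b (by omega) hb
      have s2 := slotW c d hc (by omega)
      have r1 := range _ (hsE b hb) _ s1.1 s1.2
      have r2 := range _ (hsE (d + c % 2) (by omega)) _ s2.1 s2.2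
      have heq : hL a b = wL c d := by omega
      rw [← heq] at s2
      have hs := uniq _ (hsE b hb) _ (hsE (d + c % 2) (by omega)) _ s1.1 s1.2 s2.1 s2.2
      have hl := iE _ hb _ (by omega) hs
      have e1 := hLe a b (by omega) hb
      have e2 := wLe c d hc (by omega)
      rw [← hs, ← hl] at e2
      have ho : off n (b + a % 2) a + off n (b + (a + 1) % 2) (a + 1)
          = off n b c + off n (d + 1 + c % 2) c := by omega
      simp only [off] at ho
      split_ifs at ho <;> omega
    · -- W V
      exfalso
      have ha := a.2; have hb := b.2; have hc := c.2; have hd := d.2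
      have s1 := slotW a b ha (by omega)
      have s2 := slotV c d hc hd
      have r1 := range _ (hsE (b + a % 2) (by omega)) _ s1.1 s1.2
      have r2 := range _ (hsV (d + c % 2) (by omega)) _ s2.1 s2.2
      have heq : wL a b = vL c d := by omega
      rw [← heq] at s2
      exact iVE _ (by omega) _ (by omega) (uniq _ (hsV (d + c % 2) (by omega)) _
        (hsE (b + a % 2) (by omega)) _ s2.1 s2.2 s1.1 s1.2)
    · -- W H
      exfalso
      have ha := a.2; have hb := b.2; have hc := c.2; have hd := d.2
      have s1 := slotW a b ha (by omega)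
      have s2 := slotH c d (by omega) hd
      have r1 := range _ (hsE (b + a % 2) (by omega)) _ s1.1 s1.2
      have r2 := range _ (hsE d hd) _ s2.1 s2.2
      have heq : wL a b = hL c d := by omega
      rw [← heq] at s2
      have hs := uniq _ (hsE (b + a % 2) (by omega)) _ (hsE d hd) _ s1.1 s1.2 s2.1 s2.2
      have hl := iE _ (by omega) _ hd hs
      have e1 := wLe a b ha (by omega)
      have e2 := hLe c d (by omega) hd
      rw [hs, hl] at e1
      have ho : off n d a + off n (b + 1 + a % 2) a
          = off n (d + c % 2) c + off n (d + (c + 1) % 2) (c + 1) := by omega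
      simp only [off] at ho
      split_ifs at ho <;> omega
    · -- W W
      have ha := a.2; have hb := b.2; have hc := c.2; have hd := d.2
      have s1 := slotW a b ha (by omega)
      have s2 := slotW c d hc (by omega)
      have r1 := range _ (hsE (b + a % 2) (by omega)) _ s1.1 s1.2
      have r2 := range _ (hsE (d + c % 2) (by omega)) _ s2.1 s2.2
      have heq : wL a b = wL c d := by omega
      rw [← heq] at s2
      have hs := uniq _ (hsE (b + a % 2) (by omega)) _ (hsE (d + c % 2) (by omega)) _
        s1.1 s1.2 s2.1 s2.2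
      have hl := iE _ (by omega) _ (by omega) hs
      have e1 := wLe a b ha (by omega)
      have e2 := wLe c d hc (by omega)
      rw [← hs, ← hl] at e2
      have ho : off n (b + a % 2) a + off n (b + 1 + a % 2) a
          = off n (b + a % 2) c + off n (d + 1 + c % 2) c := by omega
      have : (a : ℕ) = c ∧ (b : ℕ) = d := by
        simp only [off] at ho
        split_ifs at ho <;> omega
      rw [Fin.ext this.1, Fin.ext this.2]
  · -- range
    rintro (⟨a, b⟩ | ⟨a, b⟩ | ⟨a, b⟩) <;>
      simp only [tableFun, Sum.elim_inl, Sum.elim_inr, Set.mem_Icc]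
    · have ha := a.2; have hb := b.2
      have s1 := slotV a b ha hb
      have r1 := range _ (hsV (b + a % 2) (by omega)) _ s1.1 s1.2
      omega
    · have ha := a.2; have hb := b.2
      have s1 := slotH a b (by omega) hb
      have r1 := range _ (hsE b hb) _ s1.1 s1.2
      omega
    · have ha := a.2; have hb := b.2
      have s1 := slotW a b ha (by omega)
      have r1 := range _ (hsE (b + a % 2) (by omega)) _ s1.1 s1.2
      omega
  · intro j i hj hi
    have s1 := slotV j i (by omega) hi
    have s2 := slotV (j + 1) i hj hi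
    have s3 := slotH j i hj hi
    have r1 := range _ (hsV (i + j % 2) (by omega)) _ s1.1 s1.2
    have r2 := range _ (hsV (i + (j + 1) % 2) (by omega)) _ s2.1 s2.2
    have r3 := range _ (hsE i hi) _ s3.1 s3.2
    have : hL j i = K - vL j i - vL (j + 1) i := rfl
    omega
  · intro j i hj hi
    have s1 := slotV j i hj (by omega)
    have s2 := slotV j (i + 1) hj hi
    have s3 := slotW j i hj hi
    have r1 := range _ (hsV (i + j % 2) (by omega)) _ s1.1 s1.2
    have r2 := range _ (hsV (i + 1 + j % 2) (by omega)) _ s2.1 s2.2
    have r3 := range _ (hsE (i + j % 2) (by omega)) _ s3.1 s3.2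
    have : wL j i = K - vL j i - vL j (i + 1) := rfl
    omega

end Run7.h922.Z
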