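import Pool.Agent.Run7.h922.Z.Zig

/-!
The block criterion with block positions `1 + g s * (3 m - 1) + c s`.
-/

open SimpleGraph Run7.h138

namespace Run7.h922.Z

theorem zig_emt3 (m n : ℕ) (hm : 1 ≤ m) (hn : 2 ≤ n) (g : ℕ → ℕ) (c : ℕ → ℤ) (sV sE : ℕ → ℕ)
    (κ : ℕ) (K0 : ℤ)
    (hstep : ∀ s < 2 * n + 1, (g (s + 1) = g s ∧ c s ≤ c (s + 1)) ∨
      (g (s + 1) = g s + 1 ∧ c s ≤ c (s + 1) + (3 * m - 1)))
    (hg0 : g 0 = 0) (hc0 : c 0 = 0) (hgN : g (2 * n + 1) = n) (hcN : c (2 * n + 1) = -m)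
    (hsV : ∀ l ≤ n, sV l < 2 * n + 1) (hsE : ∀ l < n, sE l < 2 * n + 1)
    (hV : ∀ l ≤ n, (g (sV l + 1) = g (sV l) ∧ c (sV l) + szV m n l ≤ c (sV l + 1)) ∨
      (g (sV l + 1) = g (sV l) + 1 ∧ c (sV l) + szV m n l ≤ c (sV l + 1) + (3 * m - 1)))
    (hE2 : ∀ l < n, (g (sE l + 1) = g (sE l) ∧ c (sE l) + szE m n l ≤ c (sE l + 1)) ∨
      (g (sE l + 1) = g (sE l) + 1 ∧ c (sE l) + szE m n l ≤ c (sE l + 1) + (3 * m - 1)))
    (hκ : ∀ l < n, g (sV l) + g (sV (l + 1)) + g (sE l) = κ)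
    (hE : ∀ l < n, c (sV l) + c (sV (l + 1)) + c (sE l) + szE m n l + 2 = K0)
    (iV : ∀ a ≤ n, ∀ b ≤ n, sV a = sV b → a = b)
    (iE : ∀ a < n, ∀ b < n, sE a = sE b → a = b)
    (iVE : ∀ a ≤ n, ∀ b < n, sV a ≠ sE b) :
    EdgeMagicTotal (pathGraph m □ pathGraph n) := by
  have hT : (0 : ℤ) ≤ 3 * m - 1 := by omega
  have key : ∀ (s : ℕ) (d : ℤ), ((g (s + 1) = g s ∧ c s + d ≤ c (s + 1)) ∨
      (g (s + 1) = g s + 1 ∧ c s + d ≤ c (s + 1) + (3 * m - 1))) →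
      (1 + (g s : ℤ) * (3 * m - 1) + c s) + d ≤ 1 + (g (s + 1) : ℤ) * (3 * m - 1) + c (s + 1) := by
    intro s d h
    rcases h with ⟨h1, h2⟩ | ⟨h1, h2⟩
    · rw [h1]; linarith
    · rw [h1]; push_cast; linarith
  refine zig_emt m n hm hn (fun s => 1 + (g s : ℤ) * (3 * m - 1) + c s) (κ * (3 * m - 1) + K0)
    sV sE ?_ ?_ ?_ hsV hsE ?_ ?_ ?_ iV iE iVE
  · intro s hs
    have := key s 0 (by
      rcases hstep s hs with ⟨h1, h2⟩ | ⟨h1, h2⟩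
      · exact Or.inl ⟨h1, by linarith⟩
      · exact Or.inr ⟨h1, by linarith⟩)
    simpa using this
  · simp [hg0, hc0]
  · simp only [hgN, hcN]
    obtain ⟨m', rfl⟩ : ∃ m', m = m' + 1 := ⟨m - 1, by omega⟩
    obtain ⟨n', rfl⟩ : ∃ n', n = n' + 1 := ⟨n - 1, by omega⟩
    simp only [Nat.add_sub_cancel]
    push_cast
    ring
  · intro l hl
    exact key (sV l) _ (hV l hl)
  · intro l hl
    have h1 := hκ l hl
    have h2 := hE l hl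
    have h3 : ((g (sV l) : ℤ) + g (sV (l + 1)) + g (sE l)) = κ := by exact_mod_cast h1
    have h4 : ((g (sV l) : ℤ) + g (sV (l + 1)) + g (sE l)) * (3 * m - 1) = κ * (3 * m - 1) := by
      rw [h3]
    linarith
  · intro l hl
    exact key (sE l) _ (hE2 l hl)

end Run7.h922.Z
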